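import Pool.Agent.H8.CZ.Inst

/-!
# Project CZ: generators of the `K₁`-part over a ring with Artin induction

`gen_hnk1` of `H8/CZ/Inst.lean` for a commutative ring `k` with `HArt k` (Artin induction for `K₁ (k[F])`, `F` finite) and
`HUnit k` (`K₁ (k[C])` is generated by units up to torsion, `C` finite cyclic).
-/

set_option autoImplicit false

open Matrix

universe u v w

namespace Pool.Agent.H39.CZ.Gn

open Pool.Agent Pool.Agent.H8.CZ
open Pool.Agent.H95.WH (K1 K1.mk K1.map K1.unit K1.map_unit K1.map_map K1.unit_mul FamSub conjHom FinSub uH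
  conjHom_injective unit_pow)
open Pool.Agent.H71.FJ (incl)
open Pool.Agent.H71.DO (HArt HUnit)
open Pool.Agent.H71.FQ (HG HG.map HG.map_map centConj)
open Pool.Agent.H16.FU (HnK1 sy1 sy1_conj syB1 syB1_apply hnk1_induction)
open Pool.Agent.H16.KN (PSepA trc trc_of_not trc_eq)

section Gen

variable {k : Type u} [CommRing k] {G : Type v} [Group G] {n : ℕ}

/-- the symbol of an element induced from a subgroup -/
theorem sy1_sub {D C : Subgroup G} (h : D ≤ C) (hD : FinSub D) (hC : FinSub C)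
    (x : K1 (MonoidAlgebra k D)) (z : HG (Subgroup.centralizer (C : Set G)) n) :
    ∃ z', sy1 ⟨C, hC⟩ (iKB k h x) z = sy1 ⟨D, hD⟩ x z' := by
  obtain ⟨z', hz'⟩ := syR_iK (S := hgR k G n) h hD hC x z
  exact ⟨z', hz'⟩

variable (k G n) in
/-- the symbols of units of group rings of finite cyclic subgroups -/
def UnS : Set (HnK1 k G n) :=
  {x | ∃ (C : Subgroup G) (hC : Finite C) (_ : IsCyclic C) (u : (MonoidAlgebra k C)ˣ)
    (z : HG (Subgroup.centralizer (C : Set G)) n), x = sy1 ⟨C, hC⟩ (K1.unit u) z}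

theorem UnS.neg {x : HnK1 k G n} (hx : x ∈ UnS k G n) : -x ∈ UnS k G n := by
  obtain ⟨C, hC, hc, u, z, rfl⟩ := hx
  refine ⟨C, hC, hc, u, -z, ?_⟩
  rw [← syB1_apply, ← syB1_apply, map_neg]

variable (k G n) in
/-- the elements with a multiple in the subgroup generated by the symbols of units -/
def MUn (x : HnK1 k G n) : Prop := ∃ m : ℕ, 0 < m ∧ m • x ∈ AddSubgroup.closure (UnS k G n)

theorem MUn.zero : MUn k G n 0 := ⟨1, one_pos, by rw [smul_zero]; exact zero_mem _⟩

theorem MUn.add {x y : HnK1 k G n} (hx : MUn k G n x) (hy : MUn k G n y) : MUn k G n (x + y) := by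
  obtain ⟨m, hm, h⟩ := hx
  obtain ⟨m', hm', h'⟩ := hy
  refine ⟨m * m', Nat.mul_pos hm hm', ?_⟩
  rw [smul_add]
  refine add_mem ?_ ?_
  · rw [mul_comm, mul_smul]
    exact AddSubgroup.nsmul_mem _ h m'
  · rw [mul_smul]
    exact AddSubgroup.nsmul_mem _ h' m

theorem MUn.neg {x : HnK1 k G n} (hx : MUn k G n x) : MUn k G n (-x) := by
  obtain ⟨m, hm, h⟩ := hx
  exact ⟨m, hm, by rw [smul_neg]; exact neg_mem h⟩

theorem MUn.of_smul {x : HnK1 k G n} {m : ℕ} (hm : 0 < m) (h : MUn k G n (m • x)) : MUn k G n x := by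
  obtain ⟨m', hm', h'⟩ := h
  exact ⟨m' * m, Nat.mul_pos hm' hm, by rw [mul_smul]; exact h'⟩

theorem MUn.sum {ι : Type*} (s : Finset ι) (f : ι → HnK1 k G n) (h : ∀ i ∈ s, MUn k G n (f i)) :
    MUn k G n (∑ i ∈ s, f i) := by
  classical
  induction s using Finset.induction_on with
  | empty => rw [Finset.sum_empty]; exact MUn.zero
  | insert i s hi ih =>
    rw [Finset.sum_insert hi]
    exact (h i (Finset.mem_insert_self i s)).add
      (ih fun j hj => h j (Finset.mem_insert_of_mem hj))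

theorem MUn_sy (hA : HArt.{u, v} k) (hU : HUnit.{u, v} k) (F : FamSub G FinSub) (x : K1 (MonoidAlgebra k F.1))
    (z : HG (Subgroup.centralizer (F.1 : Set G)) n) : MUn k G n (sy1 F x z) := by
  have : Finite F.1 := F.2
  obtain ⟨m, r, D, y, hm, hcyc, h⟩ := hA F.1 x
  apply MUn.of_smul hm
  have e1 : m • sy1 F x z = syB1 F (m • x) z := by
    rw [map_nsmul, AddMonoidHom.coe_smul, Pi.smul_apply, syB1_apply]
  rw [e1, h, map_sum, AddMonoidHom.finsetSum_apply]
  refine MUn.sum _ _ fun i _ => ?_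
  have hfin : Finite ((D i).map F.1.subtype) :=
    Finite.of_equiv _ ((D i).equivMapOfInjective F.1.subtype F.1.subtype_injective).toEquiv
  have hcyc' : IsCyclic ((D i).map F.1.subtype) := by
    have := hcyc i
    exact isCyclic_of_surjective
      ((D i).equivMapOfInjective F.1.subtype F.1.subtype_injective)
      ((D i).equivMapOfInjective F.1.subtype F.1.subtype_injective).surjective
  have hle : (D i).map F.1.subtype ≤ F.1 := by
    rintro _ ⟨x, _, rfl⟩
    exact x.2
  obtain ⟨z', hz'⟩ := sy1_sub (k := k) hle hfin F.2 (K1.map (MonoidAlgebra.mapDomainRingHom k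
        ((D i).equivMapOfInjective F.1.subtype F.1.subtype_injective).toMonoidHom) (y i)) z
  have e2 : iKB k hle (K1.map (MonoidAlgebra.mapDomainRingHom k
        ((D i).equivMapOfInjective F.1.subtype F.1.subtype_injective).toMonoidHom) (y i)) =
      K1.map (incl k (D i)) (y i) := by
    rw [iKB, K1.map_map, ← MonoidAlgebra.mapDomainRingHom_comp]
    rfl
  rw [e2] at hz'
  have e3 : syB1 F (K1.map (incl k (D i)) (y i)) z = sy1 ⟨(D i).map F.1.subtype, hfin⟩
      (K1.map (MonoidAlgebra.mapDomainRingHom k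
        ((D i).equivMapOfInjective F.1.subtype F.1.subtype_injective).toMonoidHom) (y i)) z' := hz'
  change MUn k G n (syB1 F (K1.map (incl k (D i)) (y i)) z)
  rw [e3]
  obtain ⟨m', u, hm', h'⟩ := hU ((D i).map F.1.subtype)
    (K1.map (MonoidAlgebra.mapDomainRingHom k
      ((D i).equivMapOfInjective F.1.subtype F.1.subtype_injective).toMonoidHom) (y i))
  apply MUn.of_smul hm'
  rw [← syB1_apply, ← AddMonoidHom.smul_apply, ← map_nsmul, h', syB1_apply]
  refine ⟨1, one_pos, ?_⟩
  rw [one_smul]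
  exact AddSubgroup.subset_closure ⟨_, hfin, hcyc', u, z', rfl⟩

theorem MUn_all (hA : HArt.{u, v} k) (hU : HUnit.{u, v} k) (x : HnK1 k G n) : MUn k G n x := by
  induction x using hnk1_induction with
  | h0 => exact MUn.zero
  | h1 F x z => exact MUn_sy hA hU F x z
  | h2 a b ha hb => exact ha.add hb
  | h3 a ha => exact ha.neg

theorem exists_list_un {x : HnK1 k G n} (hx : x ∈ AddSubgroup.closure (UnS k G n)) :
    ∃ l : List (HnK1 k G n), (∀ y ∈ l, y ∈ UnS k G n) ∧ l.sum = x := by
  induction hx using AddSubgroup.closure_induction with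
  | mem x hx => exact ⟨[x], by simpa using hx, by simp⟩
  | zero => exact ⟨[], by simp, by simp⟩
  | add x y _ _ hx hy =>
    obtain ⟨l, h1, h2⟩ := hx
    obtain ⟨l', h1', h2'⟩ := hy
    refine ⟨l ++ l', ?_, ?_⟩
    · intro t ht
      rcases List.mem_append.1 ht with h | h
      · exact h1 t h
      · exact h1' t h
    · rw [List.sum_append, h2, h2']
  | neg x _ hx =>
    obtain ⟨l, h1, h2⟩ := hx
    refine ⟨l.map fun t => -t, ?_, ?_⟩
    · intro t ht
      obtain ⟨t', ht', rfl⟩ := List.mem_map.1 ht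
      exact UnS.neg (h1 t' ht')
    · rw [← h2]
      clear h1 h2
      induction l with
      | nil => simp
      | cons t l ih => rw [List.map_cons, List.sum_cons, List.sum_cons, neg_add, ih]

/-- **Generators.** -/
theorem gen_hnk1R (hA : HArt.{u, v} k) (hU : HUnit.{u, v} k) (x : HnK1 k G n) :
    ∃ (m r : ℕ) (C : Fin r → Subgroup G) (hC : ∀ i, Finite (C i)) (_ : ∀ i, IsCyclic (C i))
      (u : ∀ i, (MonoidAlgebra k (C i))ˣ) (z : ∀ i, HG (Subgroup.centralizer (C i : Set G)) n),
      0 < m ∧ m • x = ∑ i, sy1 ⟨C i, hC i⟩ (K1.unit (u i)) (z i) := by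
  obtain ⟨m, hm, h⟩ := MUn_all hA hU x
  obtain ⟨l, hl, hs⟩ := exists_list_un h
  have h1 : ∀ i : Fin l.length, l.get i ∈ UnS k G n := fun i => hl _ (List.get_mem l i)
  choose C hC hc u z hz using h1
  refine ⟨m, l.length, C, hC, hc, u, z, hm, ?_⟩
  rw [← Finset.sum_congr rfl fun i _ => hz i, ← hs]
  have h2 := List.sum_ofFn (f := fun i : Fin l.length => l.get i)
  rw [List.ofFn_get] at h2
  exact h2

end Gen

end Pool.Agent.H39.CZ.Gn
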