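import Pool.Agent.H71.CZ.Wr
import Pool.Agent.H16.KN.LinDN
import Pool.Agent.H71.FQ.HG

/-!
# Project CZ: the cocycle of the centralizer of `hat c`

`rho`: the projection of the centralizer of `hat c` to the centralizer of `c`, `rho (Δ(y) (hat c) ^ i) = y` for `0 ≤ i < p`.
`hatF φ v = ∑_{j < p} φ (rho ((hat c) ^ j * v))`: a cocycle of the centralizer of `hat c`, with `hatF φ (Δ z) = p φ z`.
-/

set_option autoImplicit false

universe u v w

namespace Pool.Agent.H39.CZ

open Pool.Agent.H71.FQ Pool.Agent.H16.KN Pool.Agent.H71.CZ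

section

variable {p : ℕ} {G : Type v} [Group G]

/-- the components of a product -/
theorem left_mul' (x y : Wr p G) (i : ZMod p) :
    (x * y).left i = x.left i * y.left (i + Multiplicative.toAdd x.right) := rfl

theorem inc_left (g : ZMod p → G) : (inc p G g).left = g := rfl

theorem inc_right (g : ZMod p → G) : (inc p G g).right = 1 := rfl

end

section

variable {p : ℕ} [hp : Fact p.Prime] {G : Type v} [Group G]

theorem hat_left (c : G) (i : ZMod p) : (hat p c).left i = if i = 0 then c else 1 := by
  unfold hat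
  rw [left_mul']
  have h : (sg p G).left = 1 := rfl
  rw [h, Pi.one_apply, mul_one, inc_left]
  by_cases hi : i = 0
  · rw [if_pos hi, hi, Function.update_self]
  · rw [if_neg hi, Function.update_of_ne hi, Pi.one_apply]

theorem hat_right (c : G) : (hat p c).right = Multiplicative.ofAdd (1 : ZMod p) := by
  show (inc p G _).right * (sg p G).right = _
  rw [inc_right, one_mul]
  rfl

theorem hat_pow_right (c : G) (j : ℕ) :
    (hat p c ^ j).right = Multiplicative.ofAdd ((j : ℕ) : ZMod p) := by
  have h := map_pow (SemidirectProduct.rightHom : Wr p G →* Multiplicative (ZMod p)) (hat p c) j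
  have h1 : (hat p c ^ j).right = ((hat p c).right) ^ j := h
  rw [h1, hat_right, ← ofAdd_nsmul, nsmul_eq_mul, mul_one]

theorem hat_pow_left_one (c : G) (j : ℕ) (hj : j < p) : (hat p c ^ j).left 1 = 1 := by
  induction j with
  | zero => rw [pow_zero]; rfl
  | succ j ih =>
    rw [pow_succ, left_mul', ih (by omega), one_mul, hat_pow_right, toAdd_ofAdd, hat_left, if_neg]
    intro h
    have h1 : ((j + 1 : ℕ) : ZMod p) = 0 := by
      push_cast
      rw [add_comm]
      exact h
    rw [ZMod.natCast_eq_zero_iff] at h1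
    exact absurd (Nat.le_of_dvd (by omega) h1) (by omega)

variable {c : G}

/-- the element `hat c` of its centralizer -/
def hatZ (p : ℕ) (c : G) : Subgroup.centralizer ({hat p c} : Set (Wr p G)) :=
  ⟨hat p c, by
    rw [Subgroup.mem_centralizer_iff]
    intro y hy
    rw [Set.mem_singleton_iff.1 hy]⟩

/-- the diagonal embedding of the centralizers of elements -/
def dgZ (p : ℕ) [Fact p.Prime] (c : G) :
    Subgroup.centralizer ({c} : Set G) →* Subgroup.centralizer ({hat p c} : Set (Wr p G)) where
  toFun y := ⟨inc p G (dgG p G y), by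
    rw [Subgroup.mem_centralizer_iff]
    intro x hx
    rw [Set.mem_singleton_iff.1 hx]
    have h := conj_hat_dg (p := p) (y : G) c
    have h1 : (y : G) * c * (y : G)⁻¹ = c := by
      have h2 : c * (y : G) = y * c := Subgroup.mem_centralizer_iff.1 y.2 c rfl
      rw [← h2, mul_inv_cancel_right]
    rw [h1] at h
    rw [mul_inv_eq_iff_eq_mul] at h
    exact h.symm⟩
  map_one' := by
    apply Subtype.ext
    show inc p G (dgG p G 1) = 1
    rw [map_one, map_one]
  map_mul' a b := by
    apply Subtype.ext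
    show inc p G (dgG p G (a * b)) = inc p G (dgG p G a) * inc p G (dgG p G b)
    rw [map_mul, map_mul]

theorem dgZ_coe (y : Subgroup.centralizer ({c} : Set G)) :
    (dgZ p c y : Wr p G) = inc p G (dgG p G y) := rfl

/-- every element of the centralizer is of this form -/
theorem exists_dgZ (x : Subgroup.centralizer ({hat p c} : Set (Wr p G))) :
    ∃ (y : Subgroup.centralizer ({c} : Set G)) (i : ℕ), i < p ∧ x = dgZ p c y * hatZ p c ^ i := by
  have hx : (x : Wr p G) * hat p c = hat p c * x :=
    (Subgroup.mem_centralizer_iff.1 x.2 (hat p c) rfl).symm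
  obtain ⟨y, i, hi, hy, e⟩ := mem_centralizer_hat c (x : Wr p G) hx
  refine ⟨⟨y, ?_⟩, i, hi, Subtype.ext ?_⟩
  · rw [Subgroup.mem_centralizer_iff]
    intro a ha
    rw [Set.mem_singleton_iff.1 ha]
    exact hy.symm
  · rw [e]
    rfl

/-- the projection to the centralizer of `c` -/
def rho (x : Subgroup.centralizer ({hat p c} : Set (Wr p G))) :
    Subgroup.centralizer ({c} : Set G) :=
  ⟨(x : Wr p G).left 1, by
    obtain ⟨y, i, hi, rfl⟩ := exists_dgZ x
    have h : ((dgZ p c y * hatZ p c ^ i : Subgroup.centralizer ({hat p c} : Set (Wr p G))) :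
        Wr p G).left 1 = y := by
      show (inc p G (dgG p G y) * hat p c ^ i).left 1 = y
      rw [left_mul', inc_left, inc_right, toAdd_one, add_zero, hat_pow_left_one c i hi, mul_one,
        dgG_apply]
    rw [h]
    exact y.2⟩

theorem rho_coe (x : Subgroup.centralizer ({hat p c} : Set (Wr p G))) :
    (rho x : G) = (x : Wr p G).left 1 := rfl

theorem rho_dgZ_mul (y : Subgroup.centralizer ({c} : Set G))
    (x : Subgroup.centralizer ({hat p c} : Set (Wr p G))) : rho (dgZ p c y * x) = y * rho x := by
  apply Subtype.ext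
  show (inc p G (dgG p G y) * (x : Wr p G)).left 1 = y * (x : Wr p G).left 1
  rw [left_mul', inc_left, inc_right, toAdd_one, add_zero, dgG_apply]

theorem dgZ_comm (y : Subgroup.centralizer ({c} : Set G)) (j : ℕ) :
    hatZ p c ^ j * dgZ p c y = dgZ p c y * hatZ p c ^ j := by
  have h : hatZ p c * dgZ p c y = dgZ p c y * hatZ p c := by
    apply Subtype.ext
    exact Subgroup.mem_centralizer_iff.1 (dgZ p c y).2 (hat p c) rfl
  have h1 : Commute (hatZ p c) (dgZ p c y) := h
  exact (h1.pow_left j)

theorem rho_hat_mul_dgZ (y : Subgroup.centralizer ({c} : Set G)) (j : ℕ) (hj : j < p) :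
    rho (hatZ p c ^ j * dgZ p c y) = y := by
  apply Subtype.ext
  rw [rho_coe]
  show (hat p c ^ j * inc p G (dgG p G y)).left 1 = y
  rw [left_mul', inc_left, dgG_apply, hat_pow_left_one c j hj, one_mul]

/-- `c` as an element of its centralizer -/
def cZ (c : G) : Subgroup.centralizer ({c} : Set G) :=
  ⟨c, by
    rw [Subgroup.mem_centralizer_iff]
    intro y hy
    rw [Set.mem_singleton_iff.1 hy]⟩

theorem hatZ_pow (c : G) : hatZ p c ^ p = dgZ p c (cZ c) := by
  apply Subtype.ext
  exact hat_pow c

theorem rho_hatZ_pow_mul (x : Subgroup.centralizer ({hat p c} : Set (Wr p G))) :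
    rho (hatZ p c ^ p * x) = cZ c * rho x := by
  rw [hatZ_pow, rho_dgZ_mul]

variable {B : Type u} [AddCommGroup B] {n : ℕ}

/-- the cocycle `f^` -/
def hatF (p : ℕ) [Fact p.Prime] {c : G} (φ : (Fin (n + 2) → Subgroup.centralizer ({c} : Set G)) → B)
    (v : Fin (n + 2) → Subgroup.centralizer ({hat p c} : Set (Wr p G))) : B :=
  ∑ j ∈ Finset.range p, φ fun t => rho (hatZ p c ^ j * v t)

theorem hatF_dgZ_mul {φ : (Fin (n + 2) → Subgroup.centralizer ({c} : Set G)) → B}
    (hφ : IsCoc (Subgroup.centralizer ({c} : Set G)) n φ) (y : Subgroup.centralizer ({c} : Set G))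
    (v : Fin (n + 2) → Subgroup.centralizer ({hat p c} : Set (Wr p G))) :
    hatF p φ (fun t => dgZ p c y * v t) = hatF p φ v := by
  unfold hatF
  refine Finset.sum_congr rfl fun j _ => ?_
  rw [← hφ.inv y fun t => rho (hatZ p c ^ j * v t)]
  congr 1
  funext t
  rw [← mul_assoc, dgZ_comm, mul_assoc, rho_dgZ_mul]

theorem hatF_hatZ_mul {φ : (Fin (n + 2) → Subgroup.centralizer ({c} : Set G)) → B}
    (hφ : IsCoc (Subgroup.centralizer ({c} : Set G)) n φ)
    (v : Fin (n + 2) → Subgroup.centralizer ({hat p c} : Set (Wr p G))) :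
    hatF p φ (fun t => hatZ p c * v t) = hatF p φ v := by
  unfold hatF
  have h1 : ∀ j, (φ fun t => rho (hatZ p c ^ j * (hatZ p c * v t))) =
      φ fun t => rho (hatZ p c ^ (j + 1) * v t) := by
    intro j
    congr 1
    funext t
    rw [pow_succ, mul_assoc]
  rw [Finset.sum_congr rfl fun j _ => h1 j]
  have h2 := Finset.sum_range_succ' (fun j => φ fun t => rho (hatZ p c ^ j * v t)) p
  have h3 := Finset.sum_range_succ (fun j => φ fun t => rho (hatZ p c ^ j * v t)) p
  have h4 : (φ fun t => rho (hatZ p c ^ p * v t)) = φ fun t => rho (hatZ p c ^ 0 * v t) := by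
    rw [pow_zero]
    simp only [rho_hatZ_pow_mul, one_mul]
    exact hφ.inv (cZ c) _
  rw [h4, h2] at h3
  exact add_right_cancel h3

theorem isCoc_hatF {φ : (Fin (n + 2) → Subgroup.centralizer ({c} : Set G)) → B}
    (hφ : IsCoc (Subgroup.centralizer ({c} : Set G)) n φ) :
    IsCoc (Subgroup.centralizer ({hat p c} : Set (Wr p G))) n (hatF p φ) where
  inv g v := by
    obtain ⟨y, i, -, rfl⟩ := exists_dgZ g
    have h1 : ∀ (i : ℕ) (v : Fin (n + 2) → Subgroup.centralizer ({hat p c} : Set (Wr p G))),
        hatF p φ (fun t => hatZ p c ^ i * v t) = hatF p φ v := by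
      intro i
      induction i with
      | zero => intro v; simp only [pow_zero, one_mul]
      | succ i ih =>
        intro v
        simp only [pow_succ, mul_assoc]
        rw [ih fun t => hatZ p c * v t, hatF_hatZ_mul hφ]
    simp only [mul_assoc]
    rw [hatF_dgZ_mul hφ y fun t => hatZ p c ^ i * v t, h1]
  coc v := by
    have h1 : ∀ i : Fin (n + 3), ((-1 : ℤ) ^ (i : ℕ) • hatF p φ fun j => v (i.succAbove j)) =
        ∑ j ∈ Finset.range p, (-1 : ℤ) ^ (i : ℕ) •
          φ fun t => rho (hatZ p c ^ j * v (i.succAbove t)) := by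
      intro i
      unfold hatF
      rw [Finset.smul_sum]
    rw [Finset.sum_congr rfl fun i _ => h1 i, Finset.sum_comm]
    refine Finset.sum_eq_zero fun j _ => ?_
    exact hφ.coc fun t => rho (hatZ p c ^ j * v t)

theorem hatF_dgZ {φ : (Fin (n + 2) → Subgroup.centralizer ({c} : Set G)) → B}
    (v : Fin (n + 2) → Subgroup.centralizer ({c} : Set G)) :
    hatF p φ (fun t => dgZ p c (v t)) = (p : ℕ) • φ v := by
  unfold hatF
  have h : ∀ j ∈ Finset.range p, (φ fun t => rho (hatZ p c ^ j * dgZ p c (v t))) = φ v := by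
    intro j hj
    congr 1
    funext t
    exact rho_hat_mul_dgZ (v t) j (Finset.mem_range.1 hj)
  rw [Finset.sum_congr rfl h, Finset.sum_const, Finset.card_range]

/-- the values of `f^` on the diagonal -/
theorem ev_dgZ {φ : (Fin (n + 2) → Subgroup.centralizer ({c} : Set G)) → B}
    (hφ : IsCoc (Subgroup.centralizer ({c} : Set G)) n φ)
    (z : HG (Subgroup.centralizer ({c} : Set G)) n) :
    HG.ev (isCoc_hatF (p := p) hφ) (HG.map n (dgZ p c) z) = (p : ℕ) • HG.ev hφ z := by
  rw [HG.ev_map]
  obtain ⟨z, rfl⟩ := HG.mk_surjective z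
  rw [HG.ev_mk, HG.ev_mk]
  have h : Finsupp.linearCombination ℤ (fun x : Fin (n + 2) →
      Subgroup.centralizer ({c} : Set G) => hatF p φ fun j => dgZ p c (x j)) =
      (p : ℤ) • Finsupp.linearCombination ℤ φ := by
    refine Finsupp.lhom_ext' fun x => LinearMap.ext_ring ?_
    simp only [LinearMap.comp_apply, Finsupp.lsingle_apply, LinearMap.smul_apply]
    rw [Finsupp.linearCombination_single, Finsupp.linearCombination_single, one_smul, one_smul,
      hatF_dgZ, natCast_zsmul]
  rw [h, LinearMap.smul_apply, natCast_zsmul]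

/-! ### The subgroup `C ≀ C_p` -/

end

section

variable {p : ℕ} {G : Type v} [Group G]

/-- the subgroup `C ≀ C_p` -/
def hatS (p : ℕ) (C : Subgroup G) : Subgroup (Wr p G) where
  carrier := {x | ∀ i, x.left i ∈ C}
  mul_mem' {x y} hx hy i := by
    rw [left_mul']
    exact C.mul_mem (hx i) (hy _)
  one_mem' i := C.one_mem
  inv_mem' {x} hx i := by
    show x⁻¹.left i ∈ C
    have h : x⁻¹.left i = (x.left (i + Multiplicative.toAdd x⁻¹.right))⁻¹ := rfl
    rw [h]
    exact C.inv_mem (hx _)

theorem mem_hatS {C : Subgroup G} {x : Wr p G} : x ∈ hatS p C ↔ ∀ i, x.left i ∈ C := Iff.rfl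

theorem inc_mem_hatS {C : Subgroup G} {g : ZMod p → G} (h : ∀ i, g i ∈ C) :
    inc p G g ∈ hatS p C := h

theorem sg_mem_hatS (C : Subgroup G) : sg p G ∈ hatS p C := fun _ => C.one_mem

end

section

variable {p : ℕ} [hp : Fact p.Prime] {G : Type v} [Group G]

instance finite_hatS (C : Subgroup G) [Finite C] : Finite (hatS p C) := by
  have hinj : Function.Injective (fun x : hatS p C =>
      ((fun i => (⟨(x : Wr p G).left i, x.2 i⟩ : C), (x : Wr p G).right) :
        (ZMod p → C) × Multiplicative (ZMod p))) := by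
    intro x y hxy
    apply Subtype.ext
    apply SemidirectProduct.ext
    · funext i
      have h := congrArg (fun q => ((q.1 i : C) : G)) hxy
      exact h
    · exact congrArg Prod.snd hxy
  have : NeZero p := ⟨hp.out.ne_zero⟩
  have : Finite (Multiplicative (ZMod p)) := inferInstanceAs (Finite (ZMod p))
  exact Finite.of_injective _ hinj

/-- the diagonal embedding of the centralizers of subgroups -/
def dgC (p : ℕ) [Fact p.Prime] (C : Subgroup G) : Subgroup.centralizer (C : Set G) →*
    Subgroup.centralizer ((hatS p C : Subgroup (Wr p G)) : Set (Wr p G)) where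
  toFun y := ⟨inc p G (dgG p G y), by
    rw [Subgroup.mem_centralizer_iff]
    intro x hx
    apply SemidirectProduct.ext
    · funext i
      rw [left_mul', left_mul', inc_left, inc_right, toAdd_one, add_zero]
      exact Subgroup.mem_centralizer_iff.1 y.2 _ (hx i)
    · show x.right * 1 = 1 * x.right
      rw [mul_one, one_mul]⟩
  map_one' := by
    apply Subtype.ext
    show inc p G (dgG p G 1) = 1
    rw [map_one, map_one]
  map_mul' a b := by
    apply Subtype.ext
    show inc p G (dgG p G (a * b)) = inc p G (dgG p G a) * inc p G (dgG p G b)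
    rw [map_mul, map_mul]

theorem dgC_coe (C : Subgroup G) (y : Subgroup.centralizer (C : Set G)) :
    (dgC p C y : Wr p G) = inc p G (dgG p G y) := rfl

variable {c : G} {B : Type u} [AddCommGroup B] {n : ℕ}

/-- elements which are not of the form `inc h * sg` -/
theorem trc_hat_of_not {C : Subgroup G} (d : hatS p C)
    (hd : ∀ h : ZMod p → G, (d : Wr p G) ≠ inc p G h * sg p G) :
    trc n (hat p c) (hatS p C) d = 0 := by
  refine trc_of_not fun h => ?_
  obtain ⟨k, hk⟩ := isConj_hat_form c (d : Wr p G) h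
  exact hd k hk

/-- **The transport to the centralizer of `hat c`.** -/
theorem trc_hat (c : G) (C : Subgroup G) (h : ZMod p → G) (hh : ∀ i, h i ∈ C) (d : hatS p C)
    (hd : (d : Wr p G) = inc p G h * sg p G) (P : C) (hP : (P : G) = pr0 h)
    (z : HG (Subgroup.centralizer (C : Set G)) n) :
    trc n (hat p c) (hatS p C) d (HG.map n (dgC p C) z) =
      HG.map n (dgZ p c) (trc n c C P z) := by
  by_cases hc : IsConj c (P : G)
  · obtain ⟨x, hx⟩ := isConj_iff.1 hc
    obtain ⟨k, hk1, hk2⟩ := conj_hat h
    have hkC := hk1 C hh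
    have hX : (inc p G k * inc p G (dgG p G x)) * hat p c *
        (inc p G k * inc p G (dgG p G x))⁻¹ = (d : Wr p G) := by
      rw [hd, hk2, ← hP, ← hx, ← conj_hat_dg]
      group
    have hm : x * c * x⁻¹ ∈ C := by
      rw [hx]
      exact P.2
    have hm' : (inc p G k * inc p G (dgG p G x)) * hat p c *
        (inc p G k * inc p G (dgG p G x))⁻¹ ∈ hatS p C := by
      rw [hX]
      exact d.2
    rw [trc_eq _ hX hm', trc_eq x hx hm, HG.map_map, HG.map_map]
    congr 1
    apply congrArg
    apply MonoidHom.ext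
    intro y
    apply Subtype.ext
    rw [MonoidHom.comp_apply, MonoidHom.comp_apply, cnj_coe, dgZ_coe, cnj_coe, dgC_coe]
    have h1 : (inc p G k)⁻¹ * inc p G (dgG p G y) * inc p G k = inc p G (dgG p G y) := by
      rw [← map_inv, ← map_mul, ← map_mul]
      congr 1
      funext i
      show (k i)⁻¹ * (y : G) * k i = y
      have h2 : k i * (y : G) = y * k i := Subgroup.mem_centralizer_iff.1 y.2 _ (hkC i)
      rw [mul_assoc, ← h2, inv_mul_cancel_left]
    calc (inc p G k * inc p G (dgG p G x))⁻¹ * inc p G (dgG p G y) *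
          (inc p G k * inc p G (dgG p G x)) = (inc p G (dgG p G x))⁻¹ *
          ((inc p G k)⁻¹ * inc p G (dgG p G y) * inc p G k) * inc p G (dgG p G x) := by group
      _ = (inc p G (dgG p G x))⁻¹ * inc p G (dgG p G y) * inc p G (dgG p G x) := by rw [h1]
      _ = inc p G (dgG p G (x⁻¹ * y * x)) := by
        simp only [map_mul, map_inv]
  · have hc' : ¬ IsConj (hat p c) (d : Wr p G) := by
      rw [hd, isConj_hat_iff, ← hP]
      exact hc
    rw [trc_of_not hc, trc_of_not hc', AddMonoidHom.zero_apply, AddMonoidHom.zero_apply, map_zero]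

/-- **The values of `f^` on the symbols.** -/
theorem ev_trc_hat {φ : (Fin (n + 2) → Subgroup.centralizer ({c} : Set G)) → B}
    (hφ : IsCoc (Subgroup.centralizer ({c} : Set G)) n φ) (C : Subgroup G) (h : ZMod p → G)
    (hh : ∀ i, h i ∈ C) (d : hatS p C) (hd : (d : Wr p G) = inc p G h * sg p G) (P : C)
    (hP : (P : G) = pr0 h) (z : HG (Subgroup.centralizer (C : Set G)) n) :
    HG.ev (isCoc_hatF (p := p) hφ) (trc n (hat p c) (hatS p C) d (HG.map n (dgC p C) z)) =
      (p : ℕ) • HG.ev hφ (trc n c C P z) := by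
  rw [trc_hat c C h hh d hd P hP, ev_dgZ]

end

end Pool.Agent.H39.CZ
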