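import Pool.Agent.H39.KL.RelA

/-!
# Project CZ: the rotation functional of the class of `c` vanishes on chains with entries in a subgroup ring

If no conjugate of `c` lies in the image of `e : H → G`, then `TR q c Φ` vanishes on the image of the chains over `B[H]`.
`relK`: if `X` is, in `KQ (B[G])`, the image of an element of `KQ (B[H])`, then the value of the functional on a chain which
represents `X` is divisible by `p ^ (m + (m - r + 1))`.
-/

set_option autoImplicit false

open Matrix

universe u v w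

namespace Pool.Agent.H39.CZ

open Pool.Agent.H71.FQ Pool.Agent.H16.KN Pool.Agent.H16.FU Pool.Agent.H39.KL

section

variable {G : Type u} [Group G] {H : Type w} [Group H] {B : Type v} [CommRing B]

private theorem coeff_range (e : H →* G) (a : MonoidAlgebra B H) {x : G}
    (hx : (MonoidAlgebra.mapDomainRingHom B e a).coeff x ≠ 0) : ∃ h : H, e h = x := by
  classical
  induction a using MonoidAlgebra.induction_linear with
  | zero =>
    rw [map_zero] at hx
    exact absurd rfl hx
  | add a b ha hb =>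
    rw [map_add, MonoidAlgebra.coeff_add, Finsupp.add_apply] at hx
    by_cases h1 : (MonoidAlgebra.mapDomainRingHom B e a).coeff x = 0
    · rw [h1, zero_add] at hx
      exact hb hx
    · exact ha h1
  | single y r =>
    change (MonoidAlgebra.mapDomain e (MonoidAlgebra.single y r)).coeff x ≠ 0 at hx
    rw [MonoidAlgebra.mapDomain_single, MonoidAlgebra.coeff_single, Finsupp.single_apply] at hx
    by_cases h1 : e y = x
    · exact ⟨y, h1⟩
    · rw [if_neg h1] at hx
      exact absurd rfl hx

private theorem TT_kill {K N : ℕ} [NeZero K] (e : H →* G) {c : G}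
    (hc : ∀ (u : G) (h : H), u * e h * u⁻¹ ≠ c) {φ : (Fin K → G) → B} (hφ : CI c φ)
    (x : Fin K → GLm N (MonoidAlgebra B G))
    (hx : ∀ j y, cof (lts x j) y ≠ 0 → ∃ h : H, e h = y) : TT c φ x = 0 := by
  classical
  obtain ⟨S, hS⟩ := exists_supp (lts x)
  rw [TT, TM_eq hφ _ S hS]
  refine Finset.sum_eq_zero fun g _ => ?_
  by_cases hg : ∀ j, cof (lts x j) (g j : G) ≠ 0
  · have h1 : wv c φ (fun j => (g j : G)) = 0 := by
      rw [wv]
      rw [dif_neg]
      rintro ⟨u, hu⟩
      choose h hh using fun j => hx j _ (hg j)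
      have e1 : (List.ofFn fun j => (g j : G)).prod = e (List.ofFn h).prod := by
        rw [map_list_prod, List.map_ofFn]
        congr 1
        exact congrArg List.ofFn (funext fun j => (hh j).symm)
      rw [e1] at hu
      exact hc u _ hu
    rw [h1, mul_zero]
  · push Not at hg
    obtain ⟨j, hj⟩ := hg
    have h1 : (List.ofFn fun j => cof (lts x j) (g j : G)).prod = 0 := by
      apply List.prod_eq_zero
      rw [List.mem_ofFn]
      exact ⟨j, hj⟩
    rw [h1, Matrix.trace_zero, zero_mul]

/-- The rotation functional vanishes on the chains over `B[H]`. -/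
theorem TR_kill {k : ℕ} (q : ℕ) [NeZero q] (e : H →* G) {c : G}
    (hc : ∀ (u : G) (h : H), u * e h * u⁻¹ ≠ c) {Φ : (Fin (k + 1) → Fin q → G) → B}
    (hΦ : CIq c q Φ) (w : QC (MonoidAlgebra B H) k) :
    TR q c Φ (QC.map (MonoidAlgebra.mapDomainRingHom B e) w) = 0 := by
  have h : (TR q c Φ).comp (QC.map (MonoidAlgebra.mapDomainRingHom B e)) = 0 := by
    refine QC.hom_ext fun N x => ?_
    rw [AddMonoidHom.comp_apply, QC.map_t, TR_t, AddMonoidHom.zero_apply]
    refine TT_kill e hc (fun g hg y => hΦ g hg fun j b => y (finProdFinEquiv (b, j))) _ ?_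
    intro j y hy
    have e1 : lts (rep q fun i => mapGL (MonoidAlgebra.mapDomainRingHom B e) N (x i)) j =
        (lts (rep q x) j).map (MonoidAlgebra.mapDomainRingHom B e) := by
      show ((mapGL (MonoidAlgebra.mapDomainRingHom B e) N _)⁻¹ *
        mapGL (MonoidAlgebra.mapDomainRingHom B e) N _).val = _
      rw [← map_inv, ← map_mul]
      rfl
    rw [e1] at hy
    have h1 : ∃ i i', ((lts (rep q x) j).map (MonoidAlgebra.mapDomainRingHom B e) i i').coeff y ≠ 0 := by
      by_contra hcon
      push Not at hcon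
      apply hy
      ext i i'
      exact hcon i i'
    obtain ⟨i, i', h2⟩ := h1
    exact coeff_range e _ h2
  exact DFunLike.congr_fun h w

/-- **Elements which come from a subgroup.**  If `X` is the image of an element of `KQ (B[H])` and no conjugate of `c` is in
the image of `H`, then the functional of `c` is divisible by `p ^ (m + (m - r + 1))` on the chains which represent `X`. -/
theorem relK {k : ℕ} {p : ℕ} [Fact p.Prime] (m r : ℕ) (hrm : r ≤ m)
    (hG : ∀ g : G, (∃ j : ℕ, g ^ p ^ j = 1) → g ^ p ^ r = 1) {c : G} (hc : IsOfFinOrder c)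
    (hpc : p ∣ orderOf c) {ψ : (Fin (k + 1) → Fin (p ^ m) → G) → B} (h1 : CIq c (p ^ m) ψ)
    (h2 : RIq c (p ^ m) ψ) (h3 : ∀ v, dl ψ v = 0) {τ : (Fin (p ^ m) → G) → ZMod (p ^ m)}
    (hτ : IsTau p m r c τ) (e : H →* G) (he : ∀ (u : G) (h : H), u * e h * u⁻¹ ≠ c)
    (X : KQ (MonoidAlgebra B H) k) (x : QC (MonoidAlgebra B G) (k + 1))
    (hx : ofKQ (KQ.map (MonoidAlgebra.mapDomainRingHom B e) X) = QH.mk x) :
    (p : B) ^ (m + (m - r + 1)) ∣ TR (p ^ m) c (phiG ψ τ) x := by
  obtain ⟨y, hy⟩ := ofKQ_map (MonoidAlgebra.mapDomainRingHom B e) X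
  have h4 : QH.mk (x - QC.map (MonoidAlgebra.mapDomainRingHom B e) y) = 0 := by
    rw [map_sub, ← hx, hy, sub_self]
  obtain ⟨w, hw⟩ := QH.mk_eq_zero.1 h4
  have hs : x = QC.map (MonoidAlgebra.mapDomainRingHom B e) y + qbd w := by
    rw [hw]
    abel
  have : NeZero (p ^ m) := ⟨pow_ne_zero m (Fact.out : p.Prime).ne_zero⟩
  rw [hs, map_add, TR_kill (p ^ m) e he (CIq_phiG h1 hτ), zero_add]
  exact bd_dvdG m r hrm hG hc hpc h1 h2 h3 hτ w

end

end Pool.Agent.H39.CZ
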