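import Pool.Agent.H8.CZ.Cls

/-!
# Project CZ: the linear algebra of the `K₁`-part, with the separation only for the subgroups of the given groups

`linR` of `H8/CZ/Cls.lean` for symbols of subgroups with a property `L` which passes to subgroups; the separation is needed only
for subgroups with this property.
-/

set_option autoImplicit false

open Matrix

universe u v w

namespace Pool.Agent.H39.CZ.Ln

open Pool.Agent Pool.Agent.H8.CZ
open Pool.Agent.H95.WH (K1 K1.mk K1.map K1.unit K1.map_unit K1.unit_mul FamSub conjHom FinSub uH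
  conjHom_injective unit_pow)
open Pool.Agent.H16.KN (PSepA)
open Pool.Agent.H8.KL (Cj CI finite_hom card_CI inv_mem_of_card zpowers_eq_of_card orderOf_conj' elim_sep Tor One2 unit_one')

section

variable {p : ℕ} [hp : Fact p.Prime] {B : Type u} [CommRing B] {j : B →+* ℤ_[p]} {G : Type v} [Group G] {S : CoefR B G}
  {L : Subgroup G → Prop}

variable (j) in
/-- the subgroup generated by the primitive symbols of subgroups with the property `L` -/
noncomputable def PSL (S : CoefR B G) (L : Subgroup G → Prop) : AddSubgroup S.E :=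
  AddSubgroup.closure {x | ∃ t : TrR S p, L t.C ∧ PrimJ p j t.C t.u ∧ x = t.val}

variable (j) in
/-- the elements with a multiple in `PSL` -/
def MPL (L : Subgroup G → Prop) (x : S.E) : Prop := ∃ m : ℕ, 0 < m ∧ m • x ∈ PSL j S L

theorem MPL.zero : MPL j L (0 : S.E) := ⟨1, one_pos, by rw [smul_zero]; exact zero_mem _⟩

theorem MPL.add {x y : S.E} (hx : MPL j L x) (hy : MPL j L y) : MPL j L (x + y) := by
  obtain ⟨m, hm, h⟩ := hx
  obtain ⟨n, hn, h'⟩ := hy
  refine ⟨m * n, Nat.mul_pos hm hn, ?_⟩
  rw [smul_add]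
  refine add_mem ?_ ?_
  · rw [mul_comm, mul_smul]
    exact AddSubgroup.nsmul_mem _ h n
  · rw [mul_smul]
    exact AddSubgroup.nsmul_mem _ h' m

theorem MPL.neg {x : S.E} (hx : MPL j L x) : MPL j L (-x) := by
  obtain ⟨m, hm, h⟩ := hx
  exact ⟨m, hm, by rw [smul_neg]; exact neg_mem h⟩

theorem MPL.of_smul {x : S.E} {m : ℕ} (hm : 0 < m) (h : MPL j L (m • x)) : MPL j L x := by
  obtain ⟨n, hn, h'⟩ := h
  exact ⟨n * m, Nat.mul_pos hn hm, by rw [mul_smul]; exact h'⟩

theorem MPL.sum {ι : Type*} (s : Finset ι) (f : ι → S.E) (h : ∀ i ∈ s, MPL j L (f i)) :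
    MPL j L (∑ i ∈ s, f i) := by
  classical
  induction s using Finset.induction_on with
  | empty => rw [Finset.sum_empty]; exact MPL.zero
  | insert i s hi ih =>
    rw [Finset.sum_insert hi]
    exact (h i (Finset.mem_insert_self i s)).add
      (ih fun j hj => h j (Finset.mem_insert_of_mem hj))

variable (j) in
theorem MPL_unit (hL : ∀ D C : Subgroup G, D ≤ C → L C → L D) :
    ∀ (n : ℕ) (t : TrR S p), L t.C → Nat.card t.C ≤ n → MPL j L t.val := by
  intro n
  induction n with
  | zero =>
    intro t htL ht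
    have := t.fin
    have h1 : 0 < Nat.card t.C := Nat.card_pos
    omega
  | succ n ih =>
    intro t htL ht
    have := t.fin
    have hcyc := t.cyc
    obtain ⟨m, r, D, hD, v, w, hm, h1, h2⟩ := low_primJ p j t.C t.comm t.u
    apply MPL.of_smul hm
    have e1 : m • t.val = S.sy ⟨t.C, t.fin⟩ (m • K1.unit t.u) t.z := by
      rw [map_nsmul, AddMonoidHom.coe_smul, Pi.smul_apply]
      rfl
    rw [e1, h1, map_add, map_sum, AddMonoidHom.add_apply, AddMonoidHom.finsetSum_apply]
    refine MPL.add ?_ (MPL.sum _ _ fun a _ => ?_)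
    · refine ⟨1, one_pos, ?_⟩
      rw [one_smul]
      exact AddSubgroup.subset_closure ⟨⟨t.C, t.fin, t.cyc, t.cop, w, t.z⟩, htL, h2, rfl⟩
    · have hf : Finite (D a) := Finite.of_injective _ (Subgroup.inclusion_injective (hD a).le)
      have hc : IsCyclic (D a) := isCyclic_of_injective _ (Subgroup.inclusion_injective (hD a).le)
      obtain ⟨z', hz'⟩ := syR_iK (hD a).le hf t.fin (K1.unit (v a)) t.z
      rw [hz']
      refine ih ⟨D a, hf, hc, fun h0 => t.cop (h0.trans (Subgroup.card_dvd_of_le (hD a).le)), v a, z'⟩ (hL _ _ (hD a).le htL) ?_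
      have h3 : Nat.card (D a) < Nat.card t.C := by
        by_contra hcon
        have h4 := Subgroup.eq_of_le_of_card_ge (hD a).le (not_lt.1 hcon)
        exact (hD a).ne h4
      change Nat.card (D a) ≤ n
      omega

theorem exists_listL {x : S.E} (hx : x ∈ PSL j S L) :
    ∃ l : List (TrR S p), (∀ t ∈ l, L t.C ∧ PrimJ p j t.C t.u) ∧ x = (l.map TrR.val).sum := by
  induction hx using AddSubgroup.closure_induction with
  | mem x hx =>
    obtain ⟨t, htL, ht, rfl⟩ := hx
    exact ⟨[t], by simpa using ⟨htL, ht⟩, by simp⟩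
  | zero => exact ⟨[], by simp, by simp⟩
  | add x y _ _ hx hy =>
    obtain ⟨l, h1, h2⟩ := hx
    obtain ⟨l', h1', h2'⟩ := hy
    refine ⟨l ++ l', ?_, ?_⟩
    · intro t ht
      rcases List.mem_append.1 ht with h | h
      · exact h1 t h
      · exact h1' t h
    · rw [List.map_append, List.sum_append, h2, h2']
  | neg x _ hx =>
    obtain ⟨l, h1, h2⟩ := hx
    refine ⟨l.map fun t => ⟨t.C, t.fin, t.cyc, t.cop, t.u, -t.z⟩, ?_, ?_⟩
    · intro t ht
      obtain ⟨t', ht', rfl⟩ := List.mem_map.1 ht
      exact h1 t' ht'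
    · rw [h2, List.map_map]
      clear h1 h2
      induction l with
      | nil => simp
      | cons t l ih =>
        rw [List.map_cons, List.map_cons, List.sum_cons, List.sum_cons, neg_add, ih,
          TrR.neg_val]
        rfl

/-- A multiple of a sum of symbols of units of subgroups with the property `L` is a sum of primitive symbols of such
subgroups. -/
theorem exists_primL (j : B →+* ℤ_[p]) (hL : ∀ D C : Subgroup G, D ≤ C → L C → L D) {ι : Type*} [Fintype ι]
    (s : ι → TrR S p) (hs : ∀ i, L (s i).C) :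
    ∃ (m n : ℕ) (t : Fin n → TrR S p), 0 < m ∧ (∀ i, L (t i).C ∧ PrimJ p j (t i).C (t i).u) ∧
      m • ∑ i, (s i).val = ∑ i, (t i).val := by
  obtain ⟨m, hm, h⟩ : MPL j L (∑ i, (s i).val) := MPL.sum _ _ fun i _ => MPL_unit j hL _ (s i) (hs i) le_rfl
  obtain ⟨l, h1, h2⟩ := exists_listL h
  refine ⟨m, l.length, fun i => l.get i, hm, fun i => h1 _ (List.get_mem l i), ?_⟩
  rw [h2]
  clear h h1 h2
  induction l with
  | nil => simp
  | cons t l ih =>
    rw [List.map_cons, List.sum_cons, ih]
    exact (Fin.sum_univ_succ (n := l.length) fun i => ((t :: l).get i).val).symm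

open scoped Classical in
/-- **The linear algebra of the `K₁`-part, coefficients `B`.** -/
theorem linRL (hL : ∀ D C : Subgroup G, D ≤ C → L C → L D) (hj : Function.Injective j) (P : S.E → Prop) (hP : ∀ (m : ℕ) (x : S.E), P x → P (m • x))
    (hQ : HasRelR j S P)
    (hsep : ∀ C : Subgroup G, L C → Finite C → IsCyclic C → ¬ p ∣ Nat.card C → PSepA p (S.M C))
    {ι : Type*} [Fintype ι] (s : ι → TrR S p) (hs : ∀ i, L (s i).C) (hw : P (∑ i, (s i).val)) :
    ∃ m : ℤ, m ≠ 0 ∧ m • ∑ i, (s i).val = 0 := by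
  obtain ⟨M, n, t, hM, hprim', hsum⟩ := exists_primL j hL s hs
  have hprim := fun i => (hprim' i).2
  have hfin : ∀ i, Finite (t i).C := fun i => (t i).fin
  let _ : ∀ i, Fintype (t i).C := fun i => Fintype.ofFinite _
  have ht : P (∑ i, (t i).val) := by
    rw [← hsum]
    exact hP M _ hw
  let s' : Setoid (Fin n) :=
    { r := fun i k => Cj (t i).C (t k).C
      iseqv := ⟨fun i => Cj.refl _, fun h => h.symm, fun h h' => h.trans h'⟩ }
  have htor : Tor (∑ i, (t i).val) := by
    rw [← Finset.sum_fiberwise Finset.univ (fun i => (Quotient.mk s' i))]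
    refine Tor.sum _ _ fun q _ => ?_
    obtain ⟨k, rfl⟩ := Quotient.exists_rep q
    rw [Finset.sum_subtype (p := fun i => Cj (t i).C (t k).C) _ (by
      intro i
      rw [Finset.mem_filter]
      constructor
      · rintro ⟨_, h⟩
        exact Quotient.exact h
      · intro h
        exact ⟨Finset.mem_univ _, Quotient.sound h⟩)]
    exact clsR_tor hj t hprim (fun c hc hpc f hf => relR_TJ hQ t ht c hc hpc f hf) (t k).C
      (t k).fin (t k).cyc (t k).cop (hsep _ (hprim' k).1 (t k).fin (t k).cyc (t k).cop)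
  obtain ⟨m, hm, h⟩ := htor
  refine ⟨m * M, mul_ne_zero hm (by exact_mod_cast hM.ne'), ?_⟩
  rw [mul_smul, natCast_zsmul, hsum, h]

end

end Pool.Agent.H39.CZ.Ln
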