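import Pool.Agent.H39.CZ.GenR
import Pool.Agent.H39.CZ.LinRL
import Pool.Agent.H71.CZ.LinF
import Pool.Agent.H8.CZ.Tra

/-!
# Project CZ: the linear algebra of the `K₁`-part over a ring with Artin induction

`RelPU`: `RelP` (`H71/CZ/LinF.lean`) with a coefficient ring in any universe.  `HasRelD`: `HasRelF` with a commutative ring `R` in
place of the field.  `linFR`: the version of `linF` for commutative rings `R` with `HArt R` and `HUnit R`; the
separation is needed, for each finite cyclic subgroup `C`, only for the primes larger than a bound which depends on `C`.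
-/

set_option autoImplicit false

open Matrix

universe u v w

namespace Pool.Agent.H39.CZ

open Pool.Agent.H95.WH (K1 K1.mk K1.map K1.unit K1.map_unit FamSub FinSub)
open Pool.Agent.H71.FQ (HG HG.map)
open Pool.Agent.H71.DO (HArt HUnit)
open Pool.Agent.H71.CZ (RelP HasRelF)
open Pool.Agent.H16.FU (HnK1 sy1 syB1 syB1_apply hn1 hn1_sy1)
open Pool.Agent.H16.KN (PSepA trc)
open Pool.Agent.H8.CZ (hgR TrR jU)

/-- the relations of the functionals for one prime `p`, coefficients `R`, `φ : R → ℤ_[p]`, and a subgroup `QR` of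
`HnK1 R G n` -/
def RelPU (p : ℕ) [hp : Fact p.Prime] (R : Type u) [CommRing R] (φ : R →+* ℤ_[p]) (G : Type v) [Group G] (n : ℕ)
    (QR : AddSubgroup (HnK1 R G n)) : Prop :=
  ∀ (r : ℕ) (C : Fin r → Subgroup G) (hC : ∀ i, Finite (C i)), (∀ i, IsCyclic (C i)) → (∀ i, ¬ p ∣ Nat.card (C i)) →
    ∀ [∀ i, Fintype (C i)] (v : ∀ i, (MonoidAlgebra R (C i))ˣ)
    (z : ∀ i, HG (Subgroup.centralizer (C i : Set G)) n),
    ∑ i, sy1 ⟨C i, hC i⟩ (K1.unit (v i)) (z i) ∈ QR →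
      ∀ c : G, IsOfFinOrder c → ¬ p ∣ orderOf c →
      ∀ f : HG (Subgroup.centralizer ({c} : Set G)) n →+ ℚ, (∀ y, ¬ p ∣ (f y).den) →
      ∀ e : ℕ, (∀ i, ∃ a : MonoidAlgebra ℤ_[p] (C i),
          (MonoidAlgebra.mapRingHom (C i) φ (v i : MonoidAlgebra R (C i))) ^ e =
            1 + (p : MonoidAlgebra ℤ_[p] (C i)) ^ 4 * a) →
      ∃ K : ℕ, ∀ l : ℕ, ∃ y : ℤ_[p],
        (p : ℚ_[p]) ^ K * (∑ i, ∑ d : C i, ((f (trc n c (C i) d (z i)) : ℚ) : ℚ_[p]) *
          ((((MonoidAlgebra.mapRingHom (C i) φ (v i : MonoidAlgebra R (C i))) ^ (e * p ^ l) -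
            1).coeff d : ℤ_[p]) : ℚ_[p])) = (p : ℚ_[p]) ^ (2 * l) * (y : ℚ_[p])

/-- from the relations over `ℤ_[p]` to the relations over `R` -/
theorem relPU_of_id {p : ℕ} [hp : Fact p.Prime] {R : Type u} [CommRing R] (φ : R →+* ℤ_[p]) {G : Type v} [Group G] {n : ℕ}
    {QP : AddSubgroup (HnK1 ℤ_[p] G n)} (h : RelP p ℤ_[p] (RingHom.id ℤ_[p]) G n QP)
    {QR : AddSubgroup (HnK1 R G n)} (hQ : ∀ x ∈ QR, hn1 φ x ∈ QP) : RelPU p R φ G n QR := by
  intro r C hC hcyc hcop _ v z hmem c hc hpc f hf e he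
  have h1 : ∑ i, sy1 ⟨C i, hC i⟩ (K1.unit (jU φ (v i))) (z i) ∈ QP := by
    have h2 := hQ _ hmem
    rw [map_sum] at h2
    rw [Finset.sum_congr rfl fun i _ => ?_]
    · exact h2
    · rw [hn1_sy1, K1.map_unit]
      rfl
  have h2 : ∀ i, MonoidAlgebra.mapRingHom (C i) (RingHom.id ℤ_[p])
      ((jU φ (v i) : (MonoidAlgebra ℤ_[p] (C i))ˣ) : MonoidAlgebra ℤ_[p] (C i)) =
      MonoidAlgebra.mapRingHom (C i) φ (v i : MonoidAlgebra R (C i)) := by
    intro i
    rw [MonoidAlgebra.mapRingHom_id]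
    rfl
  obtain ⟨K, hK⟩ := h r C hC hcyc hcop (fun i => jU φ (v i)) z h1 c hc hpc f hf e (fun i => by
    rw [h2]
    exact he i)
  simp only [h2] at hK
  exact ⟨K, hK⟩

theorem relPU_of_relP {p : ℕ} [Fact p.Prime] {R : Type} [CommRing R] {φ : R →+* ℤ_[p]} {G : Type v} [Group G]
    {n : ℕ} {QR : AddSubgroup (HnK1 R G n)} (h : RelP p R φ G n QR) : RelPU p R φ G n QR := h

/-- the relations of the functionals over the ring `R`: every relation `∑ [C_i, u_i, z_i] ∈ Q` comes, for arbitrarily large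
`p`, from a subring `S` of `R` with an embedding into `ℤ_[p]` -/
def HasRelD (R : Type u) [CommRing R] (G : Type v) [Group G] (n : ℕ) (Q : AddSubgroup (HnK1 R G n)) :
    Prop :=
  ∀ (N r : ℕ) (C : Fin r → Subgroup G) (hC : ∀ i, Finite (C i)), (∀ i, IsCyclic (C i)) →
    ∀ [∀ i, Fintype (C i)] (u : ∀ i, (MonoidAlgebra R (C i))ˣ)
    (z : ∀ i, HG (Subgroup.centralizer (C i : Set G)) n),
    ∑ i, sy1 ⟨C i, hC i⟩ (K1.unit (u i)) (z i) ∈ Q →
    ∃ (p : ℕ) (_ : Fact p.Prime) (S : Subring R) (φ : S →+* ℤ_[p])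
      (v : ∀ i, (MonoidAlgebra S (C i))ˣ) (QR : AddSubgroup (HnK1 S G n)),
      N < p ∧ Function.Injective φ ∧
      (∀ i, (MonoidAlgebra.mapRingHom (C i) S.subtype (v i : MonoidAlgebra S (C i))) = u i) ∧
      ∑ i, sy1 ⟨C i, hC i⟩ (K1.unit (v i)) (z i) ∈ QR ∧
      RelPU p S φ G n QR

theorem hasRelD_of_hasRelF {k : Type} [Field k] {G : Type v} [Group G] {n : ℕ} {Q : AddSubgroup (HnK1 k G n)}
    (h : HasRelF k G n Q) : HasRelD k G n Q := h

/-- the subgroups of finitely many finite subgroups -/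
private theorem finite_le {G : Type v} [Group G] {r : ℕ} (C : Fin r → Subgroup G) (hC : ∀ i, Finite (C i)) :
    {D : Subgroup G | ∃ i, D ≤ C i}.Finite := by
  have h1 : {D : Subgroup G | ∃ i, D ≤ C i} = ⋃ i, {D : Subgroup G | D ≤ C i} := by
    ext D
    rw [Set.mem_iUnion]
    rfl
  rw [h1]
  refine Set.finite_iUnion fun i => ?_
  have h2 : {s : Set G | s ⊆ (C i : Set G)}.Finite := Set.Finite.finite_subsets (Set.toFinite (C i : Set G))
  exact Set.Finite.preimage (SetLike.coe_injective.injOn) h2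

/-- **The linear algebra of the `K₁`-part over a ring with Artin induction.** -/
theorem linFR {R : Type u} [CommRing R] (hA : HArt.{u, v} R) (hU : HUnit.{u, v} R) {G : Type v} [Group G] {n : ℕ}
    (Q : AddSubgroup (HnK1 R G n)) (hQ : HasRelD R G n Q)
    (hsep : ∀ C : Subgroup G, Finite C → IsCyclic C → ∃ N : ℕ, ∀ p : ℕ, p.Prime → N < p →
      PSepA p (HG (Subgroup.centralizer (C : Set G)) n))
    (w : HnK1 R G n) (hw : w ∈ Q) : ∃ m : ℤ, m ≠ 0 ∧ m • w = 0 := by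
  classical
  obtain ⟨m, r, C, hC, hc, u, z, hm, h⟩ := Gn.gen_hnk1R hA hU w
  let _ : ∀ i, Fintype (C i) := fun i => Fintype.ofFinite _
  have h1 : ∑ i, sy1 ⟨C i, hC i⟩ (K1.unit (u i)) (z i) ∈ Q := by
    rw [← h]
    exact AddSubgroup.nsmul_mem _ hw m
  -- the bound
  obtain ⟨N, hN⟩ : ∃ N : ℕ, ∀ D : Subgroup G, (∃ i, D ≤ C i) → ∀ p : ℕ, p.Prime → N < p →
      PSepA p (HG (Subgroup.centralizer (D : Set G)) n) := by
    have h2 : ∀ D : Subgroup G, ∃ N : ℕ, (∃ i, D ≤ C i) → ∀ p : ℕ, p.Prime → N < p →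
        PSepA p (HG (Subgroup.centralizer (D : Set G)) n) := by
      intro D
      by_cases hD : ∃ i, D ≤ C i
      · obtain ⟨i, hi⟩ := hD
        have hf : Finite D := Finite.of_injective _ (Subgroup.inclusion_injective hi)
        have hcy : IsCyclic D := isCyclic_of_injective _ (Subgroup.inclusion_injective hi)
        obtain ⟨N, hN⟩ := hsep D hf hcy
        exact ⟨N, fun _ => hN⟩
      · exact ⟨0, fun h => absurd h hD⟩
    choose N hN using h2
    obtain ⟨b, hb⟩ := ((finite_le C hC).image N).bddAbove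
    exact ⟨b, fun D hD p hp hbp => hN D hD p hp (lt_of_le_of_lt (hb ⟨D, hD, rfl⟩) hbp)⟩
  obtain ⟨p, hp, S, φ, v, QR, hNp, hφ, hv, hQR, hrel⟩ := hQ (N + ∑ i, Nat.card (C i)) r C hC hc u z h1
  have hcop : ∀ i, ¬ p ∣ Nat.card (C i) := by
    intro i hi
    have h2 := Nat.le_of_dvd Nat.card_pos hi
    have h3 : Nat.card (C i) ≤ ∑ i, Nat.card (C i) :=
      Finset.single_le_sum (f := fun i => Nat.card (C i)) (fun _ _ => Nat.zero_le _) (Finset.mem_univ i)
    omega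
  let s : Fin r → TrR (hgR S G n) p := fun i => ⟨C i, hC i, hc i, hcop i, v i, z i⟩
  have hval : ∀ i, (s i).val = sy1 ⟨C i, hC i⟩ (K1.unit (v i)) (z i) := fun i => rfl
  obtain ⟨m', hm', h'⟩ := Ln.linRL (S := hgR S G n) (L := fun D => ∃ i, D ≤ C i)
    (fun D D' h ⟨i, hi⟩ => ⟨i, h.trans hi⟩) hφ (fun x : HnK1 S G n => x ∈ QR)
    (fun m x hx => AddSubgroup.nsmul_mem _ hx m) hrel
    (fun D hD _ _ _ => hN D hD p hp.out (lt_of_le_of_lt (Nat.le_add_right _ _) hNp)) s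
    (fun i => ⟨i, le_rfl⟩) (by
      rw [Finset.sum_congr rfl fun i _ => hval i]
      exact hQR)
  have h4 : m' • (∑ i, sy1 ⟨C i, hC i⟩ (K1.unit (v i)) (z i)) = (0 : HnK1 S G n) := h'
  have h2 : hn1 S.subtype (∑ i, sy1 ⟨C i, hC i⟩ (K1.unit (v i)) (z i)) = m • w := by
    rw [h, map_sum]
    refine Finset.sum_congr rfl fun i _ => ?_
    rw [hn1_sy1, K1.map_unit]
    congr 2
    apply Units.ext
    exact hv i
  refine ⟨m' * m, mul_ne_zero hm' (by exact_mod_cast hm.ne'), ?_⟩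
  rw [mul_smul, natCast_zsmul, ← h2, ← map_zsmul]
  rw [h4, map_zero]

end Pool.Agent.H39.CZ
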