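import Pool.Agent.H39.CZ.LinFR
import Pool.Agent.H71.CZ.RelVR
import Pool.Agent.H71.CZ.St1
import Pool.Agent.H71.FU1.LocF1
import Pool.Agent.H71.FQ.LocR
import Pool.Agent.H16.CZ.T1
import Pool.Agent.H73.CZ.RedD

/-!
# Project CZ: the `K₁`-part over a domain of characteristic zero with Artin induction

`w1_directed`: the torsion statement for the `K₁`-component is local in the group (as `ratInj01_directed` of
`H71/FU1/LocF1.lean`).  `hasRelD_fr`: the relations of the functionals over a domain `R` for the elements of `HnK1 R G n` which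
have a torsion value over the fraction field `k`: the descent over `k` (`descent` of `H73/CZ/RedD`) gives a subring `S` of `k`, take
`S ∩ R`.  `main_R`: a relation `M • (α₀ w₀ + α₁ w₁) = 0` over `R` gives one over `k`, there `w₀` is torsion (`k0_tor`), so the
value of `w₁` is torsion; `linFR`.
-/

set_option autoImplicit false

open Matrix

universe u v w

namespace Pool.Agent.H39.CZ

open Pool.Agent.H71.FQ (HG HG.map KQ HnK0 KQ.map assemblyN NatK0.ofHom assemblyN_ofHom)
open Pool.Agent.H71.DO (HArt HUnit)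
open Pool.Agent.H71.CZ (RelP relP_zp')
open Pool.Agent.H16.FU (HnK1 sy1 syB1 syB1_apply hn1 hn1_sy1 hn1_comp map_assembly1 assembly1 assembly01)
open Pool.Agent.H16.KN (PSepA trc)
open Pool.Agent.H16.CZ (k0_tor)
open Pool.Agent.H73.CZ (descent)

section Loc

open Pool.Agent.H71.FQ Pool.Agent.H71.FU1

/-- **The torsion statement for the `K₁`-component is local in the group.** -/
theorem w1_directed {R : Type u} [Ring R] {G : Type v} [Group G] {n : ℕ}
    (P : Subgroup G → Prop)
    (hP : ∀ S : Finset G, ∃ G' : Subgroup G, P G' ∧ ∀ g ∈ S, g ∈ G')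
    (h : ∀ G' : Subgroup G, P G' → ∀ (w0 : HnK0 R G' (n + 1)) (w1 : HnK1 R G' n) (M : ℤ), M ≠ 0 →
      M • assembly01 R n G' (w0, w1) = 0 → ∃ m : ℤ, m ≠ 0 ∧ m • w1 = 0)
    (w0 : HnK0 R G (n + 1)) (w1 : HnK1 R G n) (M : ℤ) (hM : M ≠ 0)
    (hz : M • assembly01 R n G (w0, w1) = 0) : ∃ m : ℤ, m ≠ 0 ∧ m • w1 = 0 := by
  classical
  obtain ⟨S0, hS0⟩ := HnK0.exists_lift R (n + 1) w0
  obtain ⟨S1, hS1⟩ := exists_lift1 R n w1
  set S : Finset G := S0 ∪ S1 with hS
  obtain ⟨z1, hz1⟩ := hS0 (Subgroup.closure (S : Set G)) fun s hs =>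
    Subgroup.subset_closure (Finset.mem_union_left _ hs)
  obtain ⟨z2, hz2⟩ := hS1 (Subgroup.closure (S : Set G)) fun s hs =>
    Subgroup.subset_closure (Finset.mem_union_right _ hs)
  have key : ∀ (G₁ : Subgroup G) (w : HnK0 R (Subgroup.closure (S : Set G)) (n + 1) ×
      HnK1 R (Subgroup.closure (S : Set G)) n) (φ : Subgroup.closure (S : Set G) →* G₁),
      assembly01 R n G₁ (HnK0.map R (n + 1) φ w.1, mapH1 R n φ w.2) =
        KQ.map (MonoidAlgebra.mapDomainRingHom R φ)
          (assembly01 R n (Subgroup.closure (S : Set G)) w) := by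
    intro G₁ w φ
    change assemblyN R (n + 1) G₁ (HnK0.map R (n + 1) φ w.1) + assembly1 R n G₁ (mapH1 R n φ w.2) =
      KQ.map (MonoidAlgebra.mapDomainRingHom R φ) (assemblyN R (n + 1) _ w.1 + assembly1 R n _ w.2)
    rw [map_add, assemblyN_map, assembly1_map]
  have h1 : KQ.map (MonoidAlgebra.mapDomainRingHom R (Subgroup.closure (S : Set G)).subtype)
      (M • assembly01 R n (Subgroup.closure (S : Set G)) (z1, z2)) = 0 := by
    have h0 : assembly01 R n (Subgroup.closure (S : Set G)) (z1, z2) =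
      assemblyN R (n + 1) _ z1 + assembly1 R n _ z2 := rfl
    rw [map_zsmul, h0, map_add, ← assemblyN_map, ← assembly1_map, hz1, hz2]
    exact hz
  obtain ⟨T, hT⟩ := KQ.exists_zero.{max u v, max u v, max u v} _ _ h1
  obtain ⟨G', hPG, hG'⟩ := hP (S ∪ T.biUnion fun a => a.coeff.support)
  have hle : Subgroup.closure (S : Set G) ≤ G' := by
    rw [Subgroup.closure_le]
    intro s hs
    exact hG' s (Finset.mem_union_left _ hs)
  have hcomp : G'.subtype.comp (Subgroup.inclusion hle) =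
      (Subgroup.closure (S : Set G)).subtype := rfl
  have h2 : KQ.map (MonoidAlgebra.mapDomainRingHom R (Subgroup.inclusion hle))
      (M • assembly01 R n (Subgroup.closure (S : Set G)) (z1, z2)) = 0 := by
    refine hT (MonoidAlgebra.mapDomainRingHom R G'.subtype) _
      (mapDomainRingHom_injective R _ G'.subtype_injective) ?_ ?_
    · rw [← hcomp]
      exact (MonoidAlgebra.mapDomainRingHom_comp _ _).symm
    · intro a ha
      exact mem_range_mapDomainRingHom R G' a fun g hg =>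
        hG' g (Finset.mem_union_right _ (Finset.mem_biUnion.2 ⟨a, ha, hg⟩))
  rw [map_zsmul, ← key] at h2
  obtain ⟨m, hm, h5⟩ := h G' hPG _ _ M hM h2
  refine ⟨m, hm, ?_⟩
  have h7 := congrArg (mapH1 R n G'.subtype) h5
  rw [map_zsmul, mapH1_mapH1, map_zero, hcomp, hz2] at h7
  exact h7

end Loc

/-- the elements with a torsion value -/
def kerT {A : Type u} [AddCommGroup A] {B : Type v} [AddCommGroup B] (f : A →+ B) : AddSubgroup A where
  carrier := {w | ∃ M : ℤ, M ≠ 0 ∧ M • f w = 0}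
  zero_mem' := ⟨1, one_ne_zero, by rw [map_zero, smul_zero]⟩
  add_mem' := by
    rintro a b ⟨M, hM, ha⟩ ⟨M', hM', hb⟩
    refine ⟨M * M', mul_ne_zero hM hM', ?_⟩
    rw [map_add, smul_add, mul_smul M M' (f b), hb, smul_zero, add_zero, mul_comm, mul_smul, ha,
      smul_zero]
  neg_mem' := by
    rintro a ⟨M, hM, ha⟩
    exact ⟨M, hM, by rw [map_neg, smul_neg, ha, neg_zero]⟩

section Lift

open Pool.Agent.H95.WH (K1 K1.map K1.unit K1.map_unit)

private theorem map_inj {A : Type*} [CommRing A] {B : Type*} [CommRing B] {f : A →+* B}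
    (hf : Function.Injective f) (C : Type*) [Group C] :
    Function.Injective (MonoidAlgebra.mapRingHom C f) := by
  intro x y h
  apply MonoidAlgebra.ext
  refine Finsupp.ext fun d => hf ?_
  have h1 := congrArg (fun a : MonoidAlgebra B C => a.coeff d) h
  simp only [MonoidAlgebra.coeff_mapRingHom] at h1
  exact h1

private theorem exists_el {R : Type*} [CommRing R] (S : Subring R) {C : Type*} [Group C] [Finite C]
    (x : MonoidAlgebra R C) (h : ∀ d, x.coeff d ∈ S) :
    ∃ y : MonoidAlgebra S C, MonoidAlgebra.mapRingHom C S.subtype y = x := by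
  refine ⟨MonoidAlgebra.ofCoeff (Finsupp.equivFunOnFinite.symm fun d => ⟨x.coeff d, h d⟩), ?_⟩
  apply MonoidAlgebra.ext
  refine Finsupp.ext fun d => ?_
  rw [MonoidAlgebra.coeff_mapRingHom]
  rfl

private theorem exists_unit {R : Type*} [CommRing R] (S : Subring R) {C : Type*} [Group C] [Finite C]
    (x : (MonoidAlgebra R C)ˣ) (h : ∀ d, (x : MonoidAlgebra R C).coeff d ∈ S)
    (h' : ∀ d, ((x⁻¹ : (MonoidAlgebra R C)ˣ) : MonoidAlgebra R C).coeff d ∈ S) :
    ∃ y : (MonoidAlgebra S C)ˣ, MonoidAlgebra.mapRingHom C S.subtype (y : MonoidAlgebra S C) = x := by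
  obtain ⟨a, ha⟩ := exists_el S _ h
  obtain ⟨b, hb⟩ := exists_el S _ h'
  have hinj := map_inj (f := S.subtype) S.subtype_injective C
  refine ⟨⟨a, b, hinj ?_, hinj ?_⟩, ha⟩
  · rw [map_mul, map_one, ha, hb, Units.mul_inv]
  · rw [map_mul, map_one, ha, hb, Units.inv_mul]

/-- **The relations of the functionals over a domain.** -/
theorem hasRelD_fr (R : Type u) [CommRing R] [IsDomain R] [CharZero R] (G : Type v) [Group G] (n : ℕ) :
    HasRelD R G n (kerT ((assembly1 (FractionRing R) n G).comp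
      (hn1 (algebraMap R (FractionRing R))))) := by
  intro N r C hC hcyc _ u z hmem
  obtain ⟨M, hM, h⟩ := hmem
  obtain ⟨ι, hι⟩ : ∃ ι, ι = algebraMap R (FractionRing R) := ⟨_, rfl⟩
  have hinj : Function.Injective ι := by
    rw [hι]
    exact IsFractionRing.injective R (FractionRing R)
  have hk : CharZero (FractionRing R) := charZero_of_injective_algebraMap (IsFractionRing.injective R (FractionRing R))
  rw [← hι] at h
  let uk : ∀ i, (MonoidAlgebra (FractionRing R) (C i))ˣ := fun i =>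
    Units.map (MonoidAlgebra.mapRingHom (C i) ι).toMonoidHom (u i)
  have h1 : M • assembly1 (FractionRing R) n G (∑ i, sy1 ⟨C i, hC i⟩ (K1.unit (uk i)) (z i)) = 0 := by
    rw [AddMonoidHom.comp_apply, map_sum (hn1 ι)] at h
    rw [← h]
    congr 2
    refine Finset.sum_congr rfl fun i _ => ?_
    rw [hn1_sy1, K1.map_unit]
  obtain ⟨p, hp, S, φ, v, hN, hφ, hv, hS⟩ := descent N r C hC uk z M hM h1
  -- the subring of `R`
  let j : S.comap ι →+* S := (ι.comp (S.comap ι).subtype).codRestrict S fun x => x.2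
  have hj : ∀ x : S.comap ι, ((j x : S) : FractionRing R) = ι (x : R) := fun x => rfl
  have hjinj : Function.Injective j := by
    intro x y hxy
    apply Subtype.ext
    apply hinj
    rw [← hj, ← hj, hxy]
  -- the units
  have hc1 : ∀ i d, (u i : MonoidAlgebra R (C i)).coeff d ∈ S.comap ι := by
    intro i d
    have h2 := congrArg (fun a : MonoidAlgebra (FractionRing R) (C i) => a.coeff d) (hv i)
    simp only [MonoidAlgebra.coeff_mapRingHom] at h2
    have h3 : (uk i : MonoidAlgebra (FractionRing R) (C i)).coeff d =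
        ι ((u i : MonoidAlgebra R (C i)).coeff d) := MonoidAlgebra.coeff_mapRingHom _ _ _
    rw [Subring.mem_comap, ← h3, ← h2]
    exact ((v i : MonoidAlgebra S (C i)).coeff d).2
  have hc2 : ∀ i d, (((u i)⁻¹ : (MonoidAlgebra R (C i))ˣ) : MonoidAlgebra R (C i)).coeff d ∈ S.comap ι := by
    intro i d
    have hv' : Units.map (MonoidAlgebra.mapRingHom (C i) S.subtype).toMonoidHom (v i) = uk i :=
      Units.ext (hv i)
    have hv2 : Units.map (MonoidAlgebra.mapRingHom (C i) S.subtype).toMonoidHom (v i)⁻¹ = (uk i)⁻¹ := by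
      rw [map_inv, hv']
    have h4 : MonoidAlgebra.mapRingHom (C i) S.subtype
        (((v i)⁻¹ : (MonoidAlgebra S (C i))ˣ) : MonoidAlgebra S (C i)) =
        (((uk i)⁻¹ : (MonoidAlgebra (FractionRing R) (C i))ˣ) : MonoidAlgebra (FractionRing R) (C i)) :=
      congrArg Units.val hv2
    have h2 := congrArg (fun a : MonoidAlgebra (FractionRing R) (C i) => a.coeff d) h4
    simp only [MonoidAlgebra.coeff_mapRingHom] at h2
    have h5 : (uk i)⁻¹ = Units.map (MonoidAlgebra.mapRingHom (C i) ι).toMonoidHom (u i)⁻¹ :=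
      (map_inv _ _).symm
    have h3 : (((uk i)⁻¹ : (MonoidAlgebra (FractionRing R) (C i))ˣ) :
        MonoidAlgebra (FractionRing R) (C i)).coeff d =
        ι ((((u i)⁻¹ : (MonoidAlgebra R (C i))ˣ) : MonoidAlgebra R (C i)).coeff d) := by
      rw [h5]
      exact MonoidAlgebra.coeff_mapRingHom _ _ _
    rw [Subring.mem_comap, ← h3, ← h2]
    exact ((((v i)⁻¹ : (MonoidAlgebra S (C i))ˣ) : MonoidAlgebra S (C i)).coeff d).2
  choose v0 hv0 using fun i => exists_unit (S.comap ι) (u i) (hc1 i) (hc2 i)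
  have hjv : ∀ i, MonoidAlgebra.mapRingHom (C i) j (v0 i : MonoidAlgebra (S.comap ι) (C i)) = v i := by
    intro i
    apply map_inj S.subtype_injective (C i)
    rw [hv i]
    apply MonoidAlgebra.ext
    refine Finsupp.ext fun d => ?_
    rw [MonoidAlgebra.coeff_mapRingHom, MonoidAlgebra.coeff_mapRingHom]
    have h3 : (uk i : MonoidAlgebra (FractionRing R) (C i)).coeff d =
        ι ((u i : MonoidAlgebra R (C i)).coeff d) := MonoidAlgebra.coeff_mapRingHom _ _ _
    rw [h3, ← hv0 i, MonoidAlgebra.coeff_mapRingHom]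
    rfl
  refine ⟨p, hp, S.comap ι, φ.comp j, v0, (kerT (assembly1 ℤ_[p] n G)).comap (hn1 (φ.comp j)), hN,
    hφ.comp hjinj, hv0, ?_, relPU_of_id (φ.comp j) (QP := kerT (assembly1 ℤ_[p] n G))
      (relP_zp' (kerT (assembly1 ℤ_[p] n G)) fun x hx => hx) fun x hx => hx⟩
  refine ⟨M, hM, ?_⟩
  have h6 : hn1 j (∑ i, sy1 ⟨C i, hC i⟩ (K1.unit (v0 i)) (z i)) =
      ∑ i, sy1 ⟨C i, hC i⟩ (K1.unit (v i)) (z i) := by
    rw [map_sum]
    refine Finset.sum_congr rfl fun i _ => ?_
    rw [hn1_sy1, K1.map_unit]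
    congr 2
    apply Units.ext
    exact hjv i
  rw [← hn1_comp, h6, ← map_assembly1, ← map_zsmul, hS, map_zero]

end Lift

/-- **The `K₁`-part over a domain with Artin induction, the case of the subgroups.** -/
theorem main_sub {R : Type u} [CommRing R] [IsDomain R] [CharZero R] (hA : HArt.{u, v} R) (hU : HUnit.{u, v} R)
    {G : Type v} [Group G] {n : ℕ} (hG : Pool.Agent.H71.CZS.Sub G n)
    (w0 : HnK0 R G (n + 1)) (w1 : HnK1 R G n) (M : ℤ) (hM : M ≠ 0)
    (h : M • assembly01 R n G (w0, w1) = 0) : ∃ m : ℤ, m ≠ 0 ∧ m • w1 = 0 := by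
  have hk : CharZero (FractionRing R) := charZero_of_injective_algebraMap (IsFractionRing.injective R (FractionRing R))
  obtain ⟨ι, hι⟩ : ∃ ι, ι = algebraMap R (FractionRing R) := ⟨_, rfl⟩
  have h1 : M • assembly01 (FractionRing R) n G
      ((NatK0.ofHom G ι).src (n + 1) w0, hn1 ι w1) = 0 := by
    have h2 := congrArg (KQ.map (MonoidAlgebra.mapRingHom G ι)) h
    rw [map_zsmul, map_zero] at h2
    rw [← h2]
    have e1 : assembly01 (FractionRing R) n G ((NatK0.ofHom G ι).src (n + 1) w0, hn1 ι w1) =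
        assemblyN _ (n + 1) G ((NatK0.ofHom G ι).src (n + 1) w0) + assembly1 _ n G (hn1 ι w1) := rfl
    have e2 : assembly01 R n G (w0, w1) = assemblyN R (n + 1) G w0 + assembly1 R n G w1 := rfl
    rw [e1, e2, map_add, assemblyN_ofHom, map_assembly1]
  obtain ⟨m0, hm0, h3⟩ := k0_tor _ _ M hM h1
  refine linFR hA hU _ (hasRelD_fr R G n) hG w1 ⟨m0 * M, mul_ne_zero hm0 hM, ?_⟩
  have h4 : assembly01 (FractionRing R) n G ((NatK0.ofHom G ι).src (n + 1) w0, hn1 ι w1) =
      assemblyN _ (n + 1) G ((NatK0.ofHom G ι).src (n + 1) w0) + assembly1 _ n G (hn1 ι w1) := rfl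
  have h5 : m0 • assemblyN (FractionRing R) (n + 1) G ((NatK0.ofHom G ι).src (n + 1) w0) = 0 := by
    rw [← map_zsmul, h3, map_zero]
  have h6 : (m0 * M) • (assemblyN (FractionRing R) (n + 1) G ((NatK0.ofHom G ι).src (n + 1) w0) +
      assembly1 (FractionRing R) n G (hn1 ι w1)) = 0 := by
    rw [← h4, mul_smul, h1, smul_zero]
  rw [smul_add, mul_comm, mul_smul, h5, smul_zero, zero_add, mul_comm] at h6
  rw [← hι, AddMonoidHom.comp_apply]
  exact h6

/-- **The `K₁`-part over a domain with Artin induction.** -/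
theorem main_R {R : Type u} [CommRing R] [IsDomain R] [CharZero R] (hA : HArt.{u, v} R) (hU : HUnit.{u, v} R)
    {G : Type v} [Group G] (n : ℕ)
    (hG : ∀ S : Finset G, ∃ G' : Subgroup G, (∀ g ∈ S, g ∈ G') ∧ Pool.Agent.H71.CZS.Sub G' n)
    (w0 : HnK0 R G (n + 1)) (w1 : HnK1 R G n) (M : ℤ) (hM : M ≠ 0)
    (h : M • assembly01 R n G (w0, w1) = 0) : ∃ m : ℤ, m ≠ 0 ∧ m • w1 = 0 := by
  refine w1_directed (fun G' => Pool.Agent.H71.CZS.Sub G' n) (fun S => ?_)
    (fun G' hG' w0 w1 M hM h => main_sub hA hU hG' w0 w1 M hM h) w0 w1 M hM h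
  obtain ⟨G', h1, h2⟩ := hG S
  exact ⟨G', h2, h1⟩

end Pool.Agent.H39.CZ
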