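import Pool.Agent.H39.KL.Mono

/-!
# Project CZ: the trace cochains on monomial multiples of matrices over a finite subgroup

As `H39/KL/Mono.lean`, without the assumption that `C` is commutative: the sum is over a set `T` of representatives of
the conjugacy classes of `C`.
-/

set_option autoImplicit false

open Matrix

universe u v w

namespace Pool.Agent.H39.CZ

open Pool.Agent.H71.FQ Pool.Agent.H16.KN Pool.Agent.H39.KL

section

variable {G : Type u} [Group G] {B : Type v} [CommRing B] {K : ℕ} [NeZero K]

omit [NeZero K] in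
theorem CI_mphN {C : Type w} [Group C] {f : C →* G} {c : G}
    {y : Fin K → G} {φ : (Fin K → G) → B} (hφ : CI c φ) (d : C) : CI d (mph f c y φ d) := by
  intro g hg x
  by_cases h : ∃ u : G, u * f d * u⁻¹ = c
  · rw [mph, mph, dif_pos h, dif_pos h]
    generalize hw : h.choose = w
    have hw' : w * f d * w⁻¹ = c := by rw [← hw]; exact h.choose_spec
    have e : (fun t => w * f (g * x t) * y t) =
        fun t => (w * f g * w⁻¹) * (w * f (x t) * y t) := by
      funext t
      rw [map_mul]
      group
    rw [e]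
    refine hφ _ ?_ _
    calc w * f g * w⁻¹ * c = w * f g * w⁻¹ * (w * f d * w⁻¹) := by rw [hw']
      _ = w * (f g * f d) * w⁻¹ := by group
      _ = w * (f d * f g) * w⁻¹ := by rw [← map_mul, hg, map_mul]
      _ = (w * f d * w⁻¹) * (w * f g * w⁻¹) := by group
      _ = c * (w * f g * w⁻¹) := by rw [hw']
  · rw [mph, mph, dif_neg h, dif_neg h]

/-- the coefficients of a monomial multiple -/
private theorem cof_mono {C : Type w} [Group C] [Fintype C] [DecidableEq G] (f : C →* G) {N : ℕ}
    (M : Matrix (Fin N) (Fin N) (MonoidAlgebra B C)) (z g : G) :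
    cof (M.map (MonoidAlgebra.mapDomainRingHom B f) *
      diagonal fun _ => MonoidAlgebra.single z (1 : B)) g =
      ∑ α : C, if f α * z = g then cof M α else 0 := by
  classical
  ext i j
  rw [cof, Matrix.map_apply, Matrix.mul_diagonal, Matrix.map_apply, Matrix.sum_apply]
  have h1 : ∀ a : MonoidAlgebra B C,
      ((MonoidAlgebra.mapDomainRingHom B f a) * MonoidAlgebra.single z (1 : B)).coeff g =
        ∑ α : C, if f α * z = g then a.coeff α else 0 := by
    intro a
    induction a using MonoidAlgebra.induction_linear with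
    | zero => simp
    | add a b ha hb =>
      rw [map_add, add_mul, MonoidAlgebra.coeff_add, Finsupp.add_apply, ha, hb,
        ← Finset.sum_add_distrib]
      refine Finset.sum_congr rfl fun α _ => ?_
      split_ifs
      · rw [MonoidAlgebra.coeff_add, Finsupp.add_apply]
      · rw [add_zero]
    | single β r =>
      rw [Finset.sum_eq_single β]
      · rw [MonoidAlgebra.mapDomainRingHom_apply, MonoidAlgebra.mapDomain_single,
          MonoidAlgebra.single_mul_single, mul_one, MonoidAlgebra.coeff_single,
          MonoidAlgebra.coeff_single, Finsupp.single_eq_same, Finsupp.single_apply]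
      · intro α _ hα
        rw [MonoidAlgebra.coeff_single, Finsupp.single_eq_of_ne hα]
        split_ifs <;> rfl
      · intro h
        exact absurd (Finset.mem_univ _) h
  rw [h1]
  refine Finset.sum_congr rfl fun α _ => ?_
  split_ifs
  · rfl
  · rfl

/-- multiples of the entries commute with an element which commutes with the subgroup -/
private theorem comm_mono {C : Type w} [Group C] (f : C →* G) (z : G)
    (hz : ∀ a : C, f a * z = z * f a) (a : MonoidAlgebra B C) :
    MonoidAlgebra.mapDomainRingHom B f a * MonoidAlgebra.single z (1 : B) =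
      MonoidAlgebra.single z (1 : B) * MonoidAlgebra.mapDomainRingHom B f a := by
  induction a using MonoidAlgebra.induction_linear with
  | zero => simp
  | add a b ha hb => rw [map_add, add_mul, mul_add, ha, hb]
  | single β r =>
    rw [MonoidAlgebra.mapDomainRingHom_apply, MonoidAlgebra.mapDomain_single,
      MonoidAlgebra.single_mul_single, MonoidAlgebra.single_mul_single, mul_one, one_mul, hz]

/-- the scalar matrix of an element -/
private noncomputable def dg (B : Type v) [CommRing B] {N : ℕ} (z : G) :
    GLm N (MonoidAlgebra B G) :=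
  ⟨diagonal fun _ => MonoidAlgebra.single z 1, diagonal fun _ => MonoidAlgebra.single z⁻¹ 1, by
    rw [diagonal_mul_diagonal, ← diagonal_one]
    congr 1
    funext i
    rw [MonoidAlgebra.single_mul_single, mul_inv_cancel, mul_one, MonoidAlgebra.one_def], by
    rw [diagonal_mul_diagonal, ← diagonal_one]
    congr 1
    funext i
    rw [MonoidAlgebra.single_mul_single, inv_mul_cancel, mul_one, MonoidAlgebra.one_def]⟩

/-- the letters of the tuple -/
private theorem lts_mono {C : Type w} [Group C] (f : C →* G) (y : Fin K → G)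
    (hy : ∀ (a : C) t, f a * y t = y t * f a) {N : ℕ} (A : Fin K → GLm N (MonoidAlgebra B C))
    (x : Fin K → GLm N (MonoidAlgebra B G))
    (hx : ∀ t, (x t).val = (A t).val.map (MonoidAlgebra.mapDomainRingHom B f) *
      diagonal fun _ => MonoidAlgebra.single (y t) 1) (j : Fin K) :
    lts x j = (lts A j).map (MonoidAlgebra.mapDomainRingHom B f) *
      diagonal fun _ => MonoidAlgebra.single ((y j)⁻¹ * y (j + 1)) 1 := by
  have h1 : ∀ t, x t = mapGL (MonoidAlgebra.mapDomainRingHom B f) N (A t) * dg B (y t) := by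
    intro t
    apply Units.ext
    rw [Units.val_mul, mapGL_val]
    exact hx t
  have h2 : ∀ (M : GLm N (MonoidAlgebra B C)) (t : Fin K),
      mapGL (MonoidAlgebra.mapDomainRingHom B f) N M * dg B (y t) =
        dg B (y t) * mapGL (MonoidAlgebra.mapDomainRingHom B f) N M := by
    intro M t
    apply Units.ext
    rw [Units.val_mul, Units.val_mul, mapGL_val]
    ext1 i k
    change (M.val.map (MonoidAlgebra.mapDomainRingHom B f) *
      diagonal (fun _ => MonoidAlgebra.single (y t) (1 : B)) :
        Matrix (Fin N) (Fin N) (MonoidAlgebra B G)) i k =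
      (diagonal (fun _ => MonoidAlgebra.single (y t) (1 : B)) *
        M.val.map (MonoidAlgebra.mapDomainRingHom B f) :
        Matrix (Fin N) (Fin N) (MonoidAlgebra B G)) i k
    rw [Matrix.mul_diagonal, Matrix.diagonal_mul, Matrix.map_apply]
    exact comm_mono f (y t) (fun a => hy a t) _
  have h3 : (x j)⁻¹ * x (j + 1) =
      mapGL (MonoidAlgebra.mapDomainRingHom B f) N ((A j)⁻¹ * A (j + 1)) *
        ((dg B (y j))⁻¹ * dg B (y (j + 1))) := by
    rw [h1, h1, _root_.mul_inv_rev, map_mul, map_inv]
    have h4 : (dg B (y j))⁻¹ * ((mapGL (MonoidAlgebra.mapDomainRingHom B f) N) (A j))⁻¹ =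
        ((mapGL (MonoidAlgebra.mapDomainRingHom B f) N) (A j))⁻¹ * (dg B (y j))⁻¹ := by
      rw [← _root_.mul_inv_rev, ← _root_.mul_inv_rev, h2]
    have h5 : (dg B (y j))⁻¹ * ((mapGL (MonoidAlgebra.mapDomainRingHom B f) N) (A (j + 1))) =
        ((mapGL (MonoidAlgebra.mapDomainRingHom B f) N) (A (j + 1))) * (dg B (y j))⁻¹ := by
      rw [inv_mul_eq_iff_eq_mul, ← mul_assoc, ← h2, mul_inv_cancel_right]
    rw [h4]
    simp only [mul_assoc]
    rw [← mul_assoc (dg B (y j))⁻¹ _ (dg B (y (j + 1))), h5]
    simp only [mul_assoc]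
  unfold lts
  rw [h3, Units.val_mul, mapGL_val]
  congr 1
  change (diagonal (fun _ => MonoidAlgebra.single (y j)⁻¹ (1 : B)) : Matrix (Fin N) (Fin N) _) *
    (diagonal (fun _ => MonoidAlgebra.single (y (j + 1)) (1 : B))) = _
  rw [diagonal_mul_diagonal]
  congr 1
  funext i
  rw [MonoidAlgebra.single_mul_single, mul_one]

private theorem prod_ite {R : Type*} [Semiring R] {n : ℕ} (p : Fin n → Prop) [DecidablePred p]
    [Decidable (∀ j, p j)] (a : Fin n → R) :
    (List.ofFn fun j => if p j then a j else 0).prod =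
      if ∀ j, p j then (List.ofFn a).prod else 0 := by
  split_ifs with h
  · congr 2
    funext j
    rw [if_pos (h j)]
  · push Not at h
    obtain ⟨j, hj⟩ := h
    apply List.prod_eq_zero
    rw [List.mem_ofFn]
    exact ⟨j, if_neg hj⟩


omit [NeZero K] in
private theorem TM_mono {C : Type w} [Group C] [Fintype C] (f : C →* G) {c : G}
    {φ : (Fin K → G) → B} (hφ : CI c φ) {N : ℕ}
    (M : Fin K → Matrix (Fin N) (Fin N) (MonoidAlgebra B C)) (z : Fin K → G) :
    TM c φ (fun j => (M j).map (MonoidAlgebra.mapDomainRingHom B f) *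
      diagonal fun _ => MonoidAlgebra.single (z j) 1) =
      ∑ α : Fin K → C, ((List.ofFn fun j => cof (M j) (α j)).prod).trace *
        wv c φ (fun j => f (α j) * z j) := by
  classical
  have hmem : ∀ (j : Fin K) (α : C), f α * z j ∈
      Finset.univ.image (fun p : Fin K × C => f p.2 * z p.1) := fun j α =>
    Finset.mem_image.2 ⟨(j, α), Finset.mem_univ _, rfl⟩
  rw [TM_eq hφ _ (Finset.univ.image (fun p : Fin K × C => f p.2 * z p.1)) ?_]
  · have h1 : ∀ g : Fin K → (Finset.univ.image (fun p : Fin K × C => f p.2 * z p.1)),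
        ((List.ofFn fun j => cof ((M j).map (MonoidAlgebra.mapDomainRingHom B f) *
          diagonal fun _ => MonoidAlgebra.single (z j) 1) (g j : G)).prod).trace *
            wv c φ (fun j => (g j : G)) =
          ∑ α : Fin K → C, if ∀ j, f (α j) * z j = (g j : G) then
            ((List.ofFn fun j => cof (M j) (α j)).prod).trace *
              wv c φ (fun j => f (α j) * z j) else 0 := by
      intro g
      have h2 : (fun j => cof ((M j).map (MonoidAlgebra.mapDomainRingHom B f) *
          diagonal fun _ => MonoidAlgebra.single (z j) 1) (g j : G)) =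
          fun j => ∑ α : C, if f α * z j = (g j : G) then cof (M j) α else 0 := by
        funext j
        exact cof_mono f (M j) (z j) (g j : G)
      rw [h2]
      have h3 := MultilinearMap.map_sum (MultilinearMap.mkPiAlgebraFin ℕ K
        (Matrix (Fin N) (Fin N) B))
        (fun (j : Fin K) (α : C) => if f α * z j = (g j : G) then cof (M j) α else 0)
      simp only [MultilinearMap.mkPiAlgebraFin_apply] at h3
      rw [h3, Matrix.trace_sum, Finset.sum_mul]
      refine Finset.sum_congr rfl fun α _ => ?_
      rw [prod_ite]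
      split_ifs with h
      · congr 2
        funext j
        exact (h j).symm
      · rw [Matrix.trace_zero, zero_mul]
    rw [Finset.sum_congr rfl fun g _ => h1 g, Finset.sum_comm]
    refine Finset.sum_congr rfl fun α _ => ?_
    rw [Finset.sum_eq_single (fun j => ⟨f (α j) * z j, hmem j (α j)⟩)]
    · rw [if_pos fun j => rfl]
    · intro g _ hg
      rw [if_neg]
      intro h
      apply hg
      funext j
      exact Subtype.ext (h j).symm
    · intro h
      exact absurd (Finset.mem_univ _) h
  · intro j x hx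
    rw [cof_mono] at hx
    obtain ⟨α, -, hα⟩ := Finset.exists_ne_zero_of_sum_ne_zero hx
    by_cases h : f α * z j = x
    · rw [← h]
      exact hmem j α
    · rw [if_neg h] at hα
      exact absurd rfl hα

/-- the partial products of the letters -/
private theorem prod_take {C : Type w} [Group C] (f : C →* G) (y : Fin K → G)
    (hy : ∀ (a : C) t, f a * y t = y t * f a) (α : Fin K → C) (t : ℕ) (ht : t ≤ K) :
    ((List.ofFn fun j => f (α j) * ((y j)⁻¹ * y (j + 1))).take t).prod =
      f (((List.ofFn α).take t).prod) * ((y 0)⁻¹ * y (Fin.ofNat K t)) := by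
  induction t with
  | zero =>
    have h0 : (Fin.ofNat K 0 : Fin K) = 0 := rfl
    rw [List.take_zero, List.take_zero, List.prod_nil, List.prod_nil, map_one, one_mul, h0,
      inv_mul_cancel]
  | succ t ih =>
    have ht' : t < K := ht
    rw [List.take_succ_eq_append_getElem (by rw [List.length_ofFn]; exact ht'),
      List.take_succ_eq_append_getElem (by rw [List.length_ofFn]; exact ht'), List.prod_append,
      List.prod_append, List.prod_singleton, List.prod_singleton, List.getElem_ofFn,
      List.getElem_ofFn, ih ht'.le, map_mul]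
    have h1 : (Fin.ofNat K t : Fin K) = ⟨t, ht'⟩ := Fin.ext (Nat.mod_eq_of_lt ht')
    have h2 : (Fin.ofNat K (t + 1) : Fin K) = ⟨t, ht'⟩ + 1 := by
      apply Fin.ext
      rw [Fin.val_add]
      change (t + 1) % K = (t + 1 % K) % K
      rw [Nat.add_mod_mod]
    rw [h1, h2]
    have h3 : ∀ a : C, (y 0)⁻¹ * f a = f a * (y 0)⁻¹ := fun a => by
      rw [inv_mul_eq_iff_eq_mul, ← mul_assoc, ← hy, mul_inv_cancel_right]
    calc f (((List.ofFn α).take t).prod) * ((y 0)⁻¹ * y ⟨t, ht'⟩) *
          (f (α ⟨t, ht'⟩) * ((y ⟨t, ht'⟩)⁻¹ * y (⟨t, ht'⟩ + 1)))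
        = f (((List.ofFn α).take t).prod) * ((y 0)⁻¹ * (y ⟨t, ht'⟩ * f (α ⟨t, ht'⟩)) *
          ((y ⟨t, ht'⟩)⁻¹ * y (⟨t, ht'⟩ + 1))) := by group
      _ = f (((List.ofFn α).take t).prod) * (((y 0)⁻¹ * f (α ⟨t, ht'⟩)) * y (⟨t, ht'⟩ + 1)) := by
        rw [← hy]
        group
      _ = _ := by
        rw [h3]
        group

/-- the values on the words -/
private theorem wv_mono {C : Type w} [Group C] (f : C →* G) {c : G} (y : Fin K → G)
    (hy : ∀ (a : C) t, f a * y t = y t * f a) {φ : (Fin K → G) → B} (hφ : CI c φ)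
    (α : Fin K → C) :
    wv c φ (fun j => f (α j) * ((y j)⁻¹ * y (j + 1))) =
      mph f c y φ (List.ofFn α).prod (vtx 1 α) := by
  have h0 : (Fin.ofNat K K : Fin K) = 0 := Fin.ext (by
    change K % K = 0 % K
    rw [Nat.mod_self, Nat.zero_mod])
  have h1 : (List.ofFn fun j => f (α j) * ((y j)⁻¹ * y (j + 1))).prod = f (List.ofFn α).prod := by
    have h2 := prod_take f y hy α K le_rfl
    rw [List.take_of_length_le (by rw [List.length_ofFn]),
      List.take_of_length_le (by rw [List.length_ofFn]), h0, inv_mul_cancel, mul_one] at h2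
    exact h2
  by_cases h : ∃ u : G, u * f (List.ofFn α).prod * u⁻¹ = c
  · obtain ⟨u, hu⟩ := h
    rw [mph_eq hy hφ _ _ u hu, wv_eq hφ _ (u * y 0)]
    · congr 1
      funext t
      unfold vtx
      rw [prod_take f y hy α t t.2.le, one_mul]
      have h3 : (Fin.ofNat K (t : ℕ) : Fin K) = t := Fin.ext (Nat.mod_eq_of_lt t.2)
      rw [h3]
      calc u * y 0 * (f ((List.ofFn α).take t).prod * ((y 0)⁻¹ * y t))
          = u * (y 0 * f ((List.ofFn α).take t).prod) * ((y 0)⁻¹ * y t) := by group
        _ = u * (f ((List.ofFn α).take t).prod * y 0) * ((y 0)⁻¹ * y t) := by rw [hy]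
        _ = _ := by group
    · rw [h1]
      calc u * y 0 * f (List.ofFn α).prod * (u * y 0)⁻¹
          = u * (y 0 * f (List.ofFn α).prod) * (u * y 0)⁻¹ := by group
        _ = u * (f (List.ofFn α).prod * y 0) * (u * y 0)⁻¹ := by rw [hy]
        _ = u * f (List.ofFn α).prod * u⁻¹ := by group
        _ = c := hu
  · rw [wv_zero c φ _ fun u hu => h ⟨u, by rw [h1] at hu; exact hu⟩, mph, dif_neg h]

/-- `T` is a set of representatives of the conjugacy classes of `C`. -/
def Reps {C : Type w} [Group C] (T : Finset C) : Prop :=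
  ∀ x : C, ∃ d ∈ T, IsConj d x ∧ ∀ d' ∈ T, IsConj d' x → d' = d

theorem exists_reps (C : Type w) [Group C] [Fintype C] : ∃ T : Finset C, Reps T := by
  classical
  refine ⟨Finset.univ.filter fun d => (ConjClasses.mk d).exists_rep.choose = d, fun x => ?_⟩
  have h0 := (ConjClasses.mk x).exists_rep.choose_spec
  set d := (ConjClasses.mk x).exists_rep.choose with hd
  have h1 : ConjClasses.mk d = ConjClasses.mk x := h0
  refine ⟨d, ?_, ConjClasses.mk_eq_mk_iff_isConj.1 h1, ?_⟩
  · rw [Finset.mem_filter]
    refine ⟨Finset.mem_univ _, ?_⟩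
    rw [h1]
  · intro d' hd' hc
    rw [Finset.mem_filter] at hd'
    have h2 : ConjClasses.mk d' = ConjClasses.mk x := ConjClasses.mk_eq_mk_iff_isConj.2 hc
    rw [← hd'.2, h2]

private theorem vtx_one {K : ℕ} (u : G) (g : Fin K → G) (j : Fin K) :
    vtx u g j = u * vtx 1 g j := by
  unfold vtx
  rw [one_mul]

/-- **Monomial multiples of matrices over a finite subgroup.** -/
theorem TT_monoN {C : Type w} [Group C] [Fintype C] {T : Finset C} (hT : Reps T) (f : C →* G)
    {c : G} (y : Fin K → G) (hy : ∀ (a : C) t, f a * y t = y t * f a) {φ : (Fin K → G) → B}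
    (hφ : CI c φ) {N : ℕ} (A : Fin K → GLm N (MonoidAlgebra B C))
    (x : Fin K → GLm N (MonoidAlgebra B G))
    (hx : ∀ t, (x t).val = (A t).val.map (MonoidAlgebra.mapDomainRingHom B f) *
      diagonal fun _ => MonoidAlgebra.single (y t) 1) :
    TT c φ x = ∑ d ∈ T, TT d (mph f c y φ d) A := by
  classical
  unfold TT
  have h1 : lts x = fun j => (lts A j).map (MonoidAlgebra.mapDomainRingHom B f) *
      diagonal fun _ => MonoidAlgebra.single ((y j)⁻¹ * y (j + 1)) 1 := by
    funext j
    exact lts_mono f y hy A x hx j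
  rw [h1, TM_mono f hφ]
  have h2 : ∀ d : C, TM d (mph f c y φ d) (lts A) =
      ∑ α : Fin K → C, ((List.ofFn fun j => cof (lts A j) (α j)).prod).trace *
        wv d (mph f c y φ d) α := by
    intro d
    rw [TM_eq (CI_mphN hφ d) (lts A) Finset.univ fun _ _ _ => Finset.mem_univ _]
    refine Fintype.sum_equiv (Equiv.piCongrRight fun _ : Fin K =>
      Equiv.subtypeUnivEquiv fun a : C => Finset.mem_univ a) _ _ fun g => ?_
    rfl
  rw [Finset.sum_congr rfl fun d _ => h2 d, Finset.sum_comm]
  refine Finset.sum_congr rfl fun α _ => ?_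
  obtain ⟨d, hdT, hd, hun⟩ := hT (List.ofFn α).prod
  rw [← Finset.mul_sum, wv_mono f y hy hφ α, Finset.sum_eq_single_of_mem d hdT]
  · obtain ⟨v, hv⟩ := isConj_iff.1 hd.symm
    rw [wv_eq (CI_mphN hφ _) α v hv]
    congr 1
    by_cases h : ∃ u : G, u * f d * u⁻¹ = c
    · obtain ⟨u, hu⟩ := h
      rw [mph_eq hy hφ d _ u hu, mph_eq hy hφ (List.ofFn α).prod _ (u * f v)]
      · congr 1
        funext t
        rw [vtx_one v, map_mul]
        group
      · rw [← hu, ← hv]
        simp only [map_mul, map_inv]
        group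
    · have h' : ¬ ∃ u : G, u * f (List.ofFn α).prod * u⁻¹ = c := by
        rintro ⟨u, hu⟩
        apply h
        refine ⟨u * (f v)⁻¹, ?_⟩
        rw [← hu, ← hv]
        simp only [map_mul, map_inv]
        group
      rw [mph, mph, dif_neg h, dif_neg h']
  · intro d' hd' hne
    apply wv_zero
    intro u hu
    exact hne (hun d' hd' (isConj_iff.2 ⟨u, hu⟩).symm)

end

end Pool.Agent.H39.CZ
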