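import Pool.Agent.H39.KL.LamC

/-!
# Project CZ: the orbit argument, abstract form

`orb_abs`: `L (j + 1) l ≡ L j (l + 1)` and `L j (l + 1) ≡ p L j l` modulo `p ^ (2 l)`, up to fixed multiples, and `L s = L 0` imply
`(p ^ s - 1) L 0 l ≡ 0`.
`pow_binom`: `u ^ (p ^ (l + 1)) - 1 ≡ p (u ^ (p ^ l) - 1)` modulo `p ^ (2 l)` if `u` is one modulo `p ^ 2`.
-/

set_option autoImplicit false

universe u v w

namespace Pool.Agent.H39.CZ

section

variable {B : Type u} [CommRing B]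

theorem orb_abs (p : ℕ) (L : ℕ → ℕ → B)
    (hK : ∀ j, ∃ K : ℕ, K ≠ 0 ∧ ∀ l, (p : B) ^ (2 * l) ∣ (K : B) * (L j (l + 1) - L (j + 1) l))
    (hb : ∀ j l, (p : B) ^ (2 * l) ∣ L j (l + 1) - (p : B) * L j l) (s : ℕ) :
    ∃ K : ℕ, K ≠ 0 ∧ ∀ l, (p : B) ^ (2 * l) ∣ (K : B) * (L s l - (p : B) ^ s * L 0 l) := by
  induction s with
  | zero =>
    refine ⟨1, one_ne_zero, fun l => ?_⟩
    rw [pow_zero, one_mul, sub_self, mul_zero]
    exact dvd_zero _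
  | succ s ih =>
    obtain ⟨K, hK0, h1⟩ := ih
    obtain ⟨K', hK0', h2⟩ := hK s
    refine ⟨K * K', mul_ne_zero hK0 hK0', fun l => ?_⟩
    have e : ((K * K' : ℕ) : B) * (L (s + 1) l - (p : B) ^ (s + 1) * L 0 l) =
        -((K : B) * ((K' : B) * (L s (l + 1) - L (s + 1) l))) +
          (K : B) * (K' : B) * (L s (l + 1) - (p : B) * L s l) +
          (K' : B) * (p : B) * ((K : B) * (L s l - (p : B) ^ s * L 0 l)) := by
      push_cast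
      ring
    rw [e]
    exact dvd_add (dvd_add ((h2 l).mul_left _).neg_right ((hb s l).mul_left _))
      ((h1 l).mul_left _)

/-- **The orbit.** -/
theorem orb_fix (p : ℕ) (L : ℕ → ℕ → B)
    (hK : ∀ j, ∃ K : ℕ, K ≠ 0 ∧ ∀ l, (p : B) ^ (2 * l) ∣ (K : B) * (L j (l + 1) - L (j + 1) l))
    (hb : ∀ j l, (p : B) ^ (2 * l) ∣ L j (l + 1) - (p : B) * L j l) (s : ℕ) (hp : 2 ≤ p)
    (hs : s ≠ 0) (hfix : ∀ l, L s l = L 0 l) :
    ∃ K : ℕ, K ≠ 0 ∧ ∀ l, (p : B) ^ (2 * l) ∣ (K : B) * L 0 l := by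
  obtain ⟨K, hK0, h⟩ := orb_abs p L hK hb s
  have h1 : 1 < p ^ s := Nat.one_lt_pow hs hp
  refine ⟨K * (p ^ s - 1), mul_ne_zero hK0 (by omega), fun l => ?_⟩
  have h2 := h l
  rw [hfix l] at h2
  have e : ((K * (p ^ s - 1) : ℕ) : B) * L 0 l = -((K : B) * (L 0 l - (p : B) ^ s * L 0 l)) := by
    push_cast [Nat.cast_sub h1.le]
    ring
  rw [e]
  exact h2.neg_right

end

section

variable {p : ℕ} [Fact p.Prime] {S : Type w} [Ring S]

private theorem one_add_pow' (x : S) (n : ℕ) :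
    ∃ y : S, (1 + x) ^ n = 1 + n • x + x ^ 2 * y := by
  induction n with
  | zero => exact ⟨0, by simp⟩
  | succ n ih =>
    obtain ⟨y, hy⟩ := ih
    refine ⟨n • 1 + y + y * x, ?_⟩
    rw [pow_succ, hy, add_smul, one_smul]
    noncomm_ring

/-- the binomial theorem -/
theorem pow_binom {k : ℕ} (hk : 2 ≤ k) (l : ℕ) (U A : S) (hU : U = 1 + (p ^ k : ℕ) • A) :
    ∃ y : S, U ^ p ^ (l + 1) - 1 - p • (U ^ p ^ l - 1) = (p ^ (2 * l) : ℕ) • y := by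
  obtain ⟨A', hA'⟩ := Pool.Agent.H39.KL.pow_congr_one hk l U A hU
  obtain ⟨y, hy⟩ := one_add_pow' ((p ^ (k + l) : ℕ) • A') p
  refine ⟨(p ^ (2 * k) : ℕ) • (A' ^ 2 * y), ?_⟩
  have e : (p ^ (k + l)) ^ 2 = p ^ (2 * l) * p ^ (2 * k) := by
    rw [← pow_mul, ← pow_add]
    congr 1
    ring
  have h1 : ((p ^ (k + l) : ℕ) • A') ^ 2 * y = (p ^ (2 * l) : ℕ) • (p ^ (2 * k) : ℕ) • (A' ^ 2 * y) := by
    rw [smul_pow, smul_mul_assoc, e, mul_smul]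
  rw [pow_succ, pow_mul, hA', hy, h1]
  generalize (p ^ (k + l) : ℕ) • A' = x
  rw [add_sub_cancel_left]
  abel

end

end Pool.Agent.H39.CZ
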