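import Pool.Agent.H39.CZ.RTau
import Pool.Agent.H39.CZ.LamN

/-!
# Project CZ: the value of the functional on `(1, U)` for an element without roots

`lamQ_leadN`, `lamQ_logN` (`H39/CZ/LamN.lean`) with the hypothesis `hroot : ∀ h, ¬ IsConj d (h ^ p ^ r)` in place of the bound
of the `p`-power torsion.
-/

set_option autoImplicit false

open Matrix

universe u v w

namespace Pool.Agent.H39.CZ

open Pool.Agent.H71.FQ Pool.Agent.H16.KN Pool.Agent.H39.KL

section

variable {C : Type u} [Group C] {B : Type v} [CommRing B] {p m r : ℕ} [Fact p.Prime]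

private theorem val_mapGL {B' : Type w} [CommRing B'] (f : B →+* B') {N : ℕ} (s : B)
    (A : Matrix (Fin N) (Fin N) (MonoidAlgebra B C)) (U : GLm N (MonoidAlgebra B C))
    (hU : U.val = 1 + s • A) :
    (mapGL (MonoidAlgebra.mapRingHom C f) N U).val =
      1 + f s • A.map (MonoidAlgebra.mapRingHom C f) := by
  classical
  rw [mapGL_val, hU]
  ext i j : 1
  rw [Matrix.map_apply, Matrix.add_apply, Matrix.add_apply, map_add, Matrix.smul_apply,
    Matrix.smul_apply, Matrix.map_apply]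
  congr 1
  · by_cases hij : i = j
    · subst hij
      rw [Matrix.one_apply_eq, Matrix.one_apply_eq, map_one]
    · rw [Matrix.one_apply_ne hij, Matrix.one_apply_ne hij, map_zero]
  · apply MonoidAlgebra.coeff_injective
    ext x
    rw [MonoidAlgebra.coeff_mapRingHom, MonoidAlgebra.coeff_smul, MonoidAlgebra.coeff_smul,
      Finsupp.smul_apply, Finsupp.smul_apply, MonoidAlgebra.coeff_mapRingHom, smul_eq_mul,
      smul_eq_mul, map_mul]

private theorem exists_unit {N : ℕ} (s : B) {n : ℕ} (hs : s ^ n = 0)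
    (A : Matrix (Fin N) (Fin N) (MonoidAlgebra B C)) :
    ∃ V : GLm N (MonoidAlgebra B C), V.val = 1 + s • A := by
  have h1 : IsNilpotent (s • A) := ⟨n, by rw [smul_pow, hs, zero_smul]⟩
  exact ⟨h1.isUnit_one_add.unit, rfl⟩

private theorem poly_split (g : Polynomial B) : ∃ (h : Polynomial B) (a b : B),
    g = (h * Polynomial.X + Polynomial.C b) * Polynomial.X + Polynomial.C a :=
  ⟨g.divX.divX, g.coeff 0, g.divX.coeff 0, by
    rw [Polynomial.divX_mul_X_add, Polynomial.divX_mul_X_add]⟩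

theorem lamQ_leadR [Fintype C] (hrm : r < m)
    {d : C} (hroot : ∀ h : C, ¬ IsConj d (h ^ p ^ r)) (hpd : p ∣ orderOf d)
    {τ : (Fin (p ^ m) → C) → ZMod (p ^ m)} (hτ : IsTau p m r d τ) {N k : ℕ} (hk : 0 < k)
    (A : Matrix (Fin N) (Fin N) (MonoidAlgebra B C)) (U : GLm N (MonoidAlgebra B C))
    (hU : U.val = 1 + ((p : B) ^ k) • A) :
    (p : B) ^ (2 * k + (m - r + 1)) ∣
      lamQ p m d τ U - (p : B) ^ (m + r) * ((p : B) ^ k * trs d A) := by
  obtain ⟨e, he⟩ : ∃ e, e = m - r + 1 := ⟨_, rfl⟩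
  obtain ⟨J, hJ⟩ : ∃ J, J = 2 * k + e + 2 := ⟨_, rfl⟩
  rw [← he]
  let R := Polynomial B ⧸ Ideal.span {(Polynomial.X : Polynomial B) ^ J}
  let q : Polynomial B →+* R := Ideal.Quotient.mk _
  let ξ : R := q Polynomial.X
  have hξ : ξ ^ J = 0 := by
    show q Polynomial.X ^ J = 0
    rw [← map_pow]
    exact Ideal.Quotient.eq_zero_iff_mem.2 (Ideal.subset_span rfl)
  let ι : B →+* R := q.comp Polynomial.C
  let AR : Matrix (Fin N) (Fin N) (MonoidAlgebra R C) := A.map (MonoidAlgebra.mapRingHom C ι)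
  obtain ⟨V, hV⟩ : ∃ V : GLm N (MonoidAlgebra R C), V.val = 1 + ξ • AR := exists_unit ξ hξ AR
  obtain ⟨μ, hμ⟩ := lamQ_dvdR (B := R) hrm.le hroot hτ V
  obtain ⟨g, hg⟩ : ∃ g, q g = μ := Ideal.Quotient.mk_surjective μ
  rw [← he] at hμ
  obtain ⟨h, a, b, hgab⟩ := poly_split g
  have key : ∀ (S : Type v) [CommRing S] (f : B →+* S) (s : S), s ^ J = 0 →
      ∀ W : GLm N (MonoidAlgebra S C), W.val = 1 + s • A.map (MonoidAlgebra.mapRingHom C f) →
      lamQ p m d τ W = (p : S) ^ e * ((Polynomial.eval₂ f s h * s + f b) * s + f a) := by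
    intro S _ f s hs W hW
    have hker : ∀ x ∈ Ideal.span {(Polynomial.X : Polynomial B) ^ J},
        Polynomial.eval₂RingHom f s x = 0 := by
      intro x hx
      obtain ⟨y, rfl⟩ := Ideal.mem_span_singleton'.1 hx
      rw [map_mul, map_pow, Polynomial.coe_eval₂RingHom, Polynomial.eval₂_X, hs, mul_zero]
    let ψ : R →+* S := Ideal.Quotient.lift _ (Polynomial.eval₂RingHom f s) hker
    have hψq : ∀ x, ψ (q x) = Polynomial.eval₂ f s x := fun x => Ideal.Quotient.lift_mk _ _ _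
    have hψξ : ψ ξ = s := (hψq _).trans (Polynomial.eval₂_X _ _)
    have hψι : ψ.comp ι = f := RingHom.ext fun x => (hψq _).trans (Polynomial.eval₂_C _ _)
    have hVW : mapGL (MonoidAlgebra.mapRingHom C ψ) N V = W := by
      apply Units.ext
      rw [val_mapGL ψ ξ AR V hV, hψξ, hW]
      congr 2
      ext i j y
      show (MonoidAlgebra.mapRingHom C ψ (MonoidAlgebra.mapRingHom C ι (A i j))).coeff y =
        (MonoidAlgebra.mapRingHom C f (A i j)).coeff y
      rw [MonoidAlgebra.coeff_mapRingHom, MonoidAlgebra.coeff_mapRingHom,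
        MonoidAlgebra.coeff_mapRingHom, ← hψι]
      rfl
    rw [← hVW, lamQ_map ψ hτ V, hμ, ← hg, map_mul, map_pow, map_natCast, hψq, hgab]
    simp only [Polynomial.eval₂_add, Polynomial.eval₂_mul, Polynomial.eval₂_X,
      Polynomial.eval₂_C]
  -- the dual numbers
  have hdual : (p : B) ^ e * a = 0 ∧ (p : B) ^ e * b = (p : B) ^ (m + r) * trs d A := by
    let f : B →+* DualNumber B := TrivSqZeroExt.inlHom B B
    have hε : (DualNumber.eps : DualNumber B) ^ 2 = 0 := by
      rw [sq]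
      exact DualNumber.eps_mul_eps
    have hεJ : (DualNumber.eps : DualNumber B) ^ J = 0 := by
      rw [hJ, pow_add, hε, mul_zero]
    obtain ⟨W, hW⟩ : ∃ W : GLm N (MonoidAlgebra (DualNumber B) C),
        W.val = 1 + (DualNumber.eps : DualNumber B) • A.map (MonoidAlgebra.mapRingHom C f) :=
      exists_unit _ hε _
    have h1 := key (DualNumber B) f DualNumber.eps hεJ W hW
    have h2 := lamQ_epsN (B := DualNumber B) hrm hpd hτ DualNumber.eps hε
      (A.map (MonoidAlgebra.mapRingHom C f)) W hW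
    rw [h2, trs_map] at h1
    have h3 : (Polynomial.eval₂ f (DualNumber.eps : DualNumber B) h * DualNumber.eps + f b) *
        DualNumber.eps + f a = f b * DualNumber.eps + f a := by
      rw [add_mul, mul_assoc, DualNumber.eps_mul_eps, mul_zero, zero_add]
    rw [h3] at h1
    have hp1 : (p : DualNumber B) = f (p : B) := (map_natCast f p).symm
    rw [hp1, ← map_pow, ← map_pow] at h1
    constructor
    · have h4 := congrArg TrivSqZeroExt.fst h1
      simpa [f] using h4.symm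
    · have h4 := congrArg TrivSqZeroExt.snd h1
      simpa [f] using h4.symm
  obtain ⟨h0, h1⟩ := hdual
  -- the quotient
  let I : Ideal B := Ideal.span {(p : B) ^ (k * J)}
  have hs : (Ideal.Quotient.mk I ((p : B) ^ k)) ^ J = 0 := by
    rw [← map_pow, ← pow_mul]
    exact Ideal.Quotient.eq_zero_iff_mem.2 (Ideal.subset_span rfl)
  have h2 := key (B ⧸ I) (Ideal.Quotient.mk I) (Ideal.Quotient.mk I ((p : B) ^ k)) hs
    (mapGL (MonoidAlgebra.mapRingHom C (Ideal.Quotient.mk I)) N U)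
    (val_mapGL (Ideal.Quotient.mk I) _ A U hU)
  rw [lamQ_map (Ideal.Quotient.mk I) hτ U] at h2
  have h3 : Polynomial.eval₂ (Ideal.Quotient.mk I) (Ideal.Quotient.mk I ((p : B) ^ k)) h =
      Ideal.Quotient.mk I (h.eval ((p : B) ^ k)) := by
    rw [Polynomial.eval₂_at_apply]
  have h4 : ((p : ℕ) : B ⧸ I) = Ideal.Quotient.mk I (p : B) := (map_natCast _ p).symm
  rw [h3, h4, ← map_pow, ← map_mul, ← map_add, ← map_mul, ← map_add, ← map_mul,
    Ideal.Quotient.mk_eq_mk_iff_sub_mem, Ideal.mem_span_singleton] at h2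
  have h5 : (p : B) ^ (2 * k + e) ∣ (p : B) ^ (k * J) := by
    refine pow_dvd_pow _ ?_
    calc 2 * k + e ≤ 1 * J := by omega
      _ ≤ k * J := Nat.mul_le_mul_right _ hk
  obtain ⟨x, hx⟩ := h5.trans h2
  refine ⟨x + h.eval ((p : B) ^ k), ?_⟩
  have e1 : (p : B) ^ (2 * k + e) = (p : B) ^ e * ((p : B) ^ k * (p : B) ^ k) := by
    rw [← pow_add, ← pow_add]
    congr 1
    omega
  rw [e1] at hx ⊢
  linear_combination hx + h0 + (p : B) ^ k * h1

/-- **The functional and the logarithm.** -/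
theorem lamQ_logR [Fintype C] (hrm : r < m)
    {d : C} (hroot : ∀ h : C, ¬ IsConj d (h ^ p ^ r)) (hpd : p ∣ orderOf d)
    {τ : (Fin (p ^ m) → C) → ZMod (p ^ m)} (hτ : IsTau p m r d τ) {N : ℕ}
    (A : Matrix (Fin N) (Fin N) (MonoidAlgebra B C)) (U : GLm N (MonoidAlgebra B C))
    (hU : U.val = 1 + ((p : B) ^ 2) • A) (l : ℕ) :
    ∃ x y : B, (p : B) ^ l * lamQ p m d τ U =
      (p : B) ^ (m + r) * trs d ((U ^ p ^ l : GLm N (MonoidAlgebra B C)).val - 1) +
        (p : B) ^ (2 * l + (m - r + 1)) * x + (p : B) ^ (m + (m - r + 1)) * y := by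
  classical
  have hns : ∀ (n : ℕ) (M : Matrix (Fin N) (Fin N) (MonoidAlgebra B C)),
      (p ^ n : ℕ) • M = ((p : B) ^ n) • M := by
    intro n M
    rw [← Nat.cast_pow, Nat.cast_smul_eq_nsmul]
  obtain ⟨A', hA'⟩ := pow_congr_one (p := p) (le_refl 2) l U.val A (by rw [hU, hns])
  have hUl : (U ^ p ^ l : GLm N (MonoidAlgebra B C)).val = 1 + ((p : B) ^ (2 + l)) • A' := by
    rw [Units.val_pow_eq_pow_val, hA', hns]
  obtain ⟨x, hx⟩ := lamQ_leadR hrm hroot hpd hτ (by omega : 0 < 2 + l) A' _ hUl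
  obtain ⟨y, hy⟩ := lamQ_powR hrm.le hroot hτ U (p ^ l)
  have htr : trs d ((U ^ p ^ l : GLm N (MonoidAlgebra B C)).val - 1) =
      (p : B) ^ (2 + l) * trs d A' := by
    rw [hUl, add_sub_cancel_left]
    unfold trs
    rw [Finset.mul_sum]
    refine Finset.sum_congr rfl fun x _ => ?_
    rw [mul_ite, mul_zero]
    congr 1
    unfold Matrix.trace
    rw [Finset.mul_sum]
    rfl
  refine ⟨(p : B) ^ 4 * x, -y, ?_⟩
  rw [htr]
  rw [Nat.cast_pow] at hy
  have e1 : (p : B) ^ (2 * (2 + l) + (m - r + 1)) =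
      (p : B) ^ (2 * l + (m - r + 1)) * (p : B) ^ 4 := by
    rw [← pow_add]
    congr 1
    omega
  rw [e1] at hx
  linear_combination hx - hy

end

end Pool.Agent.H39.CZ
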