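import Pool.Agent.H39.KL.LamA

/-!
# Project CZ: the rotation functional of an element no conjugate of which is a `p ^ r`-th power

`stab_dvd`, `exists_tau` (`H39/KL/Tau.lean`), `TR_dvd_exp`, `bd_dvdG` (`H39/KL/Coch1.lean`), `lamQ_dvd`, `lamQ_mul`, `lamQ_pow`
(`H39/KL/LamA.lean`) with the hypothesis `hroot : ∀ h, ¬ IsConj c (h ^ p ^ r)` in place of the bound of the `p`-power torsion.
-/

set_option autoImplicit false

open Matrix

universe u v w

namespace Pool.Agent.H39.CZ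

open Pool.Agent.H71.FQ Pool.Agent.H16.KN Pool.Agent.H39.KL

section

variable {G : Type u} [Group G]

private theorem lmul_lmul {q : ℕ} (g h : G) (v : Fin q → G) : lmul g (lmul h v) = lmul (g * h) v :=
  funext fun t => (mul_assoc g h (v t)).symm

private theorem lmul_one {q : ℕ} (v : Fin q → G) : lmul (1 : G) v = v :=
  funext fun t => one_mul (v t)

private theorem lmul_inj {q : ℕ} (hq : 0 < q) {g h : G} {v : Fin q → G} (e : lmul g v = lmul h v) : g = h :=
  mul_right_cancel (show g * v ⟨0, hq⟩ = h * v ⟨0, hq⟩ from congrFun e ⟨0, hq⟩)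

private theorem iter_lmul {q : ℕ} {c g : G} (h : g * c = c * g) (n : ℕ) (v : Fin q → G) :
    (sig q c)^[n] (lmul g v) = lmul g ((sig q c)^[n] v) := by
  induction n with
  | zero => rfl
  | succ n ih => rw [Function.iterate_succ_apply', ih, sig_lmul c g h, Function.iterate_succ_apply']

private theorem pow_comm_of {c g : G} (h : g * c = c * g) (j : ℕ) : g ^ j * c = c * g ^ j :=
  (Commute.pow_left (show Commute g c from h) j).eq

private theorem iter_pow {q : ℕ} {c g : G} (h : g * c = c * g) {n : ℕ} {v : Fin q → G}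
    (e : (sig q c)^[n] v = lmul g v) (j : ℕ) : (sig q c)^[n * j] v = lmul (g ^ j) v := by
  induction j with
  | zero => rw [pow_zero, lmul_one]; rfl
  | succ j ih =>
    rw [show n * (j + 1) = n + n * j by ring, Function.iterate_add_apply, ih, iter_lmul (pow_comm_of h j), e,
      lmul_lmul, pow_succ]

private theorem iter_q {q : ℕ} (c : G) (v : Fin q → G) (t : ℕ) : (sig q c)^[q * t] v = lmul (c ^ t) v :=
  iter_pow rfl (sig_iterate q c v) t

theorem stab_dvdR {p : ℕ} (hp : p.Prime) (m r : ℕ)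
    {c : G} (hroot : ∀ h : G, ¬ IsConj c (h ^ p ^ r)) {z : G} (hz : z * c = c * z) {k : ℕ} {v : Fin (p ^ m) → G}
    (h : (sig (p ^ m) c)^[k] v = lmul z v) : p ^ m ∣ p ^ r * k := by
  rcases Nat.eq_zero_or_pos k with hk | hk
  · subst hk
    exact dvd_zero _
  by_contra hcon
  obtain ⟨a, k', hk', hkk⟩ := Nat.exists_eq_pow_mul_and_not_dvd hk.ne' p hp.ne_one
  have har : a + r < m := by
    by_contra h1
    apply hcon
    rw [hkk, ← mul_assoc, ← pow_add]
    exact Dvd.dvd.mul_right (pow_dvd_pow p (by omega)) _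
  have hq : 0 < p ^ m := Nat.pow_pos hp.pos
  -- the inverse of `k'` modulo `q`
  obtain ⟨j, t, hj⟩ : ∃ j t : ℕ, k' * j = 1 + p ^ m * t := by
    have hco : Nat.Coprime k' (p ^ m) := (Nat.Coprime.pow_right m ((hp.coprime_iff_not_dvd.2 hk').symm))
    obtain ⟨j, -, hj⟩ := Nat.exists_mul_mod_eq_one_of_coprime hco (Nat.one_lt_pow (by omega) hp.one_lt)
    exact ⟨j, k' * j / p ^ m, by have := Nat.mod_add_div (k' * j) (p ^ m); omega⟩
  have hkj : k * j = p ^ a + p ^ m * (p ^ a * t) := by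
    rw [hkk, mul_assoc, hj]
    ring
  have h1 := iter_pow hz h j
  have hcz : z ^ j * c = c * z ^ j := pow_comm_of hz j
  rw [hkj, add_comm, Function.iterate_add_apply, iter_q] at h1
  -- `σ ^ (p ^ a) v = w v`
  have h2 : (sig (p ^ m) c)^[p ^ a] v = lmul ((c ^ (p ^ a * t))⁻¹ * z ^ j) v := by
    rw [← lmul_lmul, ← h1, lmul_lmul, inv_mul_cancel, lmul_one]
  have hw : ((c ^ (p ^ a * t))⁻¹ * z ^ j) * c = c * ((c ^ (p ^ a * t))⁻¹ * z ^ j) :=
    (Commute.mul_left (((Commute.refl c).pow_left (p ^ a * t)).inv_left) (show Commute (z ^ j) c from hcz)).eq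
  generalize (c ^ (p ^ a * t))⁻¹ * z ^ j = w at h2 hw
  have h3 := iter_pow hw h2 (p ^ (m - a))
  rw [← pow_add, show a + (m - a) = m by omega, sig_iterate] at h3
  have h4 : c = w ^ p ^ (m - a) := lmul_inj hq h3
  refine hroot (w ^ p ^ (m - a - r)) ?_
  rw [← pow_mul, ← pow_add, show m - a - r + r = m - a by omega, ← h4]

/-- the orbits of the centralizer and the rotation -/
private def orb {q : ℕ} (hq : 0 < q) (c : G) : Setoid (Fin q → G) where
  r w v := ∃ z : G, z * c = c * z ∧ ∃ j : ℕ, w = lmul z ((sig q c)^[j] v)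
  iseqv := by
    refine ⟨fun v => ⟨1, by simp, 0, (lmul_one v).symm⟩, ?_, ?_⟩
    · rintro w v ⟨z, hz, j, rfl⟩
      have hz' : (z * c ^ j) * c = c * (z * c ^ j) :=
        (Commute.mul_left (show Commute z c from hz) ((Commute.refl c).pow_left j)).eq
      refine ⟨(z * c ^ j)⁻¹, (Commute.inv_left (show Commute (z * c ^ j) c from hz')).eq, q * j - j, ?_⟩
      rw [iter_lmul hz, ← Function.iterate_add_apply,
        Nat.sub_add_cancel (Nat.le_mul_of_pos_left j hq), iter_q, lmul_lmul z, lmul_lmul, inv_mul_cancel, lmul_one]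
    · rintro u w v ⟨z, hz, j, rfl⟩ ⟨z', hz', j', rfl⟩
      refine ⟨z * z', (Commute.mul_left (show Commute z c from hz) (show Commute z' c from hz')).eq, j + j', ?_⟩
      rw [iter_lmul hz', lmul_lmul, ← Function.iterate_add_apply]

theorem exists_tauR {p : ℕ} (hp : p.Prime) (m r : ℕ)
    {c : G} (hroot : ∀ h : G, ¬ IsConj c (h ^ p ^ r)) : ∃ τ : (Fin (p ^ m) → G) → ZMod (p ^ m), IsTau p m r c τ := by
  classical
  have hq : 0 < p ^ m := Nat.pow_pos hp.pos
  have hinj : ∀ j : ℕ, Function.Injective ((sig (p ^ m) c)^[j]) := fun j =>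
    Function.Injective.iterate (sig_bijective (p ^ m) c).1 j
  -- well definedness
  have hwd1 : ∀ (ρ : Fin (p ^ m) → G) (z z' : G), z * c = c * z → z' * c = c * z' → ∀ j j' : ℕ, j ≤ j' →
      lmul z ((sig (p ^ m) c)^[j] ρ) = lmul z' ((sig (p ^ m) c)^[j'] ρ) →
      (p : ZMod (p ^ m)) ^ r * (j : ZMod (p ^ m)) = (p : ZMod (p ^ m)) ^ r * (j' : ZMod (p ^ m)) := by
    intro ρ z z' hz hz' j j' hjj e
    obtain ⟨d, rfl⟩ := Nat.exists_eq_add_of_le hjj
    rw [Function.iterate_add_apply, ← iter_lmul hz, ← iter_lmul hz'] at e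
    have e1 := hinj j e
    have hzz : (z'⁻¹ * z) * c = c * (z'⁻¹ * z) :=
      (Commute.mul_left (Commute.inv_left (show Commute z' c from hz')) (show Commute z c from hz)).eq
    have e2 : (sig (p ^ m) c)^[d] ρ = lmul (z'⁻¹ * z) ρ := by
      rw [← lmul_lmul, e1, lmul_lmul, inv_mul_cancel, lmul_one]
    have e3 : ((p ^ r * d : ℕ) : ZMod (p ^ m)) = 0 :=
      (ZMod.natCast_eq_zero_iff _ _).2 (stab_dvdR hp m r hroot hzz e2)
    push_cast at e3 ⊢
    rw [mul_add, e3, add_zero]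
  have hwd : ∀ (ρ : Fin (p ^ m) → G) (z z' : G), z * c = c * z → z' * c = c * z' → ∀ j j' : ℕ,
      lmul z ((sig (p ^ m) c)^[j] ρ) = lmul z' ((sig (p ^ m) c)^[j'] ρ) →
      (p : ZMod (p ^ m)) ^ r * (j : ZMod (p ^ m)) = (p : ZMod (p ^ m)) ^ r * (j' : ZMod (p ^ m)) := by
    intro ρ z z' hz hz' j j' e
    rcases le_total j j' with h | h
    · exact hwd1 ρ z z' hz hz' j j' h e
    · exact (hwd1 ρ z' z hz' hz j' j h e.symm).symm
  have hrep : ∀ v : Fin (p ^ m) → G, ∃ z : G, z * c = c * z ∧ ∃ j : ℕ,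
      v = lmul z ((sig (p ^ m) c)^[j] (Quotient.out (Quotient.mk (orb hq c) v))) := fun v =>
    (orb hq c).symm (Quotient.exact (Quotient.out_eq (Quotient.mk (orb hq c) v)))
  choose zz hzz jj hjj using hrep
  -- the value can be computed with any expression
  have key : ∀ (v w : Fin (p ^ m) → G) (z : G) (j : ℕ), z * c = c * z → w = lmul z ((sig (p ^ m) c)^[j] v) →
      (p : ZMod (p ^ m)) ^ r * (jj w : ZMod (p ^ m)) =
        (p : ZMod (p ^ m)) ^ r * (jj v : ZMod (p ^ m)) + (p : ZMod (p ^ m)) ^ r * (j : ZMod (p ^ m)) := by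
    intro v w z j hz e
    have e1 : Quotient.mk (orb hq c) w = Quotient.mk (orb hq c) v := Quotient.sound ⟨z, hz, j, e⟩
    have e2 := hjj w
    rw [e1] at e2
    have e3 := hjj v
    have e4 : w = lmul (z * zz v) ((sig (p ^ m) c)^[j + jj v] (Quotient.out (Quotient.mk (orb hq c) v))) := by
      rw [Function.iterate_add_apply, ← lmul_lmul, ← iter_lmul (hzz v), ← e3]
      exact e
    have e5 := hwd _ _ _ (hzz w)
      (Commute.mul_left (show Commute z c from hz) (show Commute (zz v) c from hzz v)).eq _ _ (e2.symm.trans e4)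
    rw [e5]
    push_cast
    ring
  refine ⟨fun v => (p : ZMod (p ^ m)) ^ r * (jj v : ZMod (p ^ m)), ⟨?_, ?_⟩⟩
  · intro z hz v
    have := key v (lmul z v) z 0 hz rfl
    rw [Nat.cast_zero, mul_zero, add_zero] at this
    exact this
  · intro v
    have := key v (sig (p ^ m) c v) 1 1 (by simp) (by rw [lmul_one]; rfl)
    rw [Nat.cast_one, mul_one] at this
    exact this

end

section

variable {G : Type u} [Group G] {B : Type v} [CommRing B] {k : ℕ}

/-- **Divisibility when no conjugate of `c` has a root.** -/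
theorem TR_dvdR {p : ℕ} [Fact p.Prime] (m r : ℕ) (hrm : r ≤ m)
    {c : G} (hroot : ∀ h : G, ¬ IsConj c (h ^ p ^ r)) {Φ : (Fin (k + 1) → Fin (p ^ m) → G) → B} (hΦ : CIq c (p ^ m) Φ)
    (hr : RIq c (p ^ m) Φ) (w : QC (MonoidAlgebra B G) k) :
    (p : B) ^ (m - r + 1) ∣ TR (p ^ m) c Φ w := by
  induction w using QC.induction with
  | h0 => rw [map_zero]; exact dvd_zero _
  | ha a b h1 h2 => rw [map_add]; exact dvd_add h1 h2
  | hn a h1 => rw [map_neg]; exact (dvd_neg).2 h1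
  | ht N x =>
    obtain ⟨S, hS⟩ := exists_supp (lts x)
    refine TR_dvd m (m - r) (Nat.sub_le m r) hΦ hr x S hS ?_
    intro l _ _ u hu
    rw [Nat.sub_sub_self hrm] at hu
    exact hroot l.prod (isConj_iff.2 ⟨u⁻¹, by rw [← hu]; group⟩)

private theorem tau_mul {p m r : ℕ} {c : G} {τ : (Fin (p ^ m) → G) → ZMod (p ^ m)}
    (hτ : IsTau p m r c τ) {g : G} (hg : g * c = c * g) (v : Fin (p ^ m) → G) :
    τ (fun b => g * v b) = τ v := hτ.inv g hg v

/-- the cochain of the boundary values on `G` -/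
private def psG {q : ℕ} (ψ : (Fin (k + 1) → Fin q → G) → B) (τ : (Fin q → G) → ZMod q) :
    (Fin (k + 3) → Fin q → G) → B := pLL ψ (ep B τ)

private theorem CIq_psG {p m r : ℕ} {c : G} {ψ : (Fin (k + 1) → Fin (p ^ m) → G) → B}
    (h1 : CIq c (p ^ m) ψ) {τ : (Fin (p ^ m) → G) → ZMod (p ^ m)} (hτ : IsTau p m r c τ) :
    CIq c (p ^ m) (psG ψ τ) := by
  intro g hg v
  have e1 := h1 g hg fun j => v j.castSucc.castSucc
  have e2 := tau_mul hτ hg (v (Fin.last k).castSucc.castSucc)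
  have e3 := tau_mul hτ hg (v (Fin.last (k + 1)).castSucc)
  have e4 := tau_mul hτ hg (v (Fin.last (k + 2)))
  unfold psG pLL ep
  rw [e1, e2, e3, e4]

private theorem RIq_psG {p m r : ℕ} {c : G} {ψ : (Fin (k + 1) → Fin (p ^ m) → G) → B}
    (h2 : RIq c (p ^ m) ψ) {τ : (Fin (p ^ m) → G) → ZMod (p ^ m)} (hτ : IsTau p m r c τ) :
    RIq c (p ^ m) (psG ψ τ) := by
  intro v
  have e1 := h2 fun j => v j.castSucc.castSucc
  unfold psG pLL ep
  rw [e1, hτ.rot, hτ.rot, hτ.rot, add_sub_add_right_eq_sub, add_sub_add_right_eq_sub]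

private theorem dl_zero_pL {X : Type*} {M : ℕ} [NeZero M] (τ : X → ZMod M)
    (ψ : (Fin (k + 1) → X) → B) (h3 : ∀ v, dl ψ v = 0) (v : Fin (k + 3) → X) :
    dl (pL ψ (tl B τ)) v = (-1) ^ k * (M : B) * pLL ψ (ep B τ) v := by
  rw [dl_pL_tl]
  unfold pL
  rw [h3]
  ring

/-- the values on boundaries -/
theorem bd_dvdR {p : ℕ} [Fact p.Prime] (m r : ℕ) (hrm : r ≤ m)
    {c : G} (hroot : ∀ h : G, ¬ IsConj c (h ^ p ^ r)) {ψ : (Fin (k + 1) → Fin (p ^ m) → G) → B} (h1 : CIq c (p ^ m) ψ)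
    (h2 : RIq c (p ^ m) ψ) (h3 : ∀ v, dl ψ v = 0) {τ : (Fin (p ^ m) → G) → ZMod (p ^ m)}
    (hτ : IsTau p m r c τ) (w : QC (MonoidAlgebra B G) (k + 2)) :
    (p : B) ^ (m + (m - r + 1)) ∣ TR (p ^ m) c (phiG ψ τ) (qbd w) := by
  rw [TR_bd (p ^ m) (CIq_phiG h1 hτ)]
  have h4 : dl (phiG ψ τ) = fun v => (-1) ^ k * ((p ^ m : ℕ) : B) * psG ψ τ v :=
    funext fun v => dl_zero_pL τ ψ h3 v
  rw [h4, TR_smul, pow_add, Nat.cast_pow]
  exact mul_dvd_mul (Dvd.intro_left _ rfl)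
    (TR_dvdR m r hrm hroot (CIq_psG h1 hτ) (RIq_psG h2 hτ) w)

end

section

variable {C : Type u} [Group C] {B : Type v} [CommRing B] {p m r : ℕ} [Fact p.Prime]

private theorem one_CIq (q : ℕ) (d : C) :
    CIq d q (fun _ : Fin (0 + 1) → Fin q → C => (1 : B)) := fun _ _ _ => rfl

private theorem one_RIq (q : ℕ) (d : C) :
    RIq d q (fun _ : Fin (0 + 1) → Fin q → C => (1 : B)) := fun _ => rfl

private theorem phi_RIq {d : C} {τ : (Fin (p ^ m) → C) → ZMod (p ^ m)}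
    (hτ : IsTau p m r d τ) :
    RIq d (p ^ m) (phiG (k := 0) (fun _ => (1 : B)) τ) := by
  intro v
  show (1 : B) * ((τ (sig (p ^ m) d (v (Fin.last (0 + 1)))) -
      τ (sig (p ^ m) d (v (Fin.last 0).castSucc))).val : B) =
    (1 : B) * ((τ (v (Fin.last (0 + 1))) - τ (v (Fin.last 0).castSucc)).val : B)
  rw [hτ.rot, hτ.rot, add_sub_add_right_eq_sub]

theorem lamQ_dvdR (hrm : r ≤ m) {d : C} (hroot : ∀ h : C, ¬ IsConj d (h ^ p ^ r))
    {τ : (Fin (p ^ m) → C) → ZMod (p ^ m)}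
    (hτ : IsTau p m r d τ) {N : ℕ} (U : GLm N (MonoidAlgebra B C)) :
    (p : B) ^ (m - r + 1) ∣ lamQ p m d τ U :=
  TR_dvdR m r hrm hroot (CIq_phiG (one_CIq _ d) hτ) (phi_RIq hτ) _

theorem lamQ_mulR (hrm : r ≤ m) {d : C} (hroot : ∀ h : C, ¬ IsConj d (h ^ p ^ r))
    {τ : (Fin (p ^ m) → C) → ZMod (p ^ m)}
    (hτ : IsTau p m r d τ) {N : ℕ} (U V : GLm N (MonoidAlgebra B C)) :
    (p : B) ^ (m + (m - r + 1)) ∣ lamQ p m d τ (U * V) - (lamQ p m d τ U + lamQ p m d τ V) := by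
  have h3 : ∀ v : Fin (0 + 2) → Fin (p ^ m) → C,
      dl (fun _ : Fin (0 + 1) → Fin (p ^ m) → C => (1 : B)) v = 0 := by
    intro v
    unfold dl
    rw [Fin.sum_univ_two]
    simp
  have h := bd_dvdR (k := 0) m r hrm hroot (one_CIq (B := B) _ d) (one_RIq _ d) h3 hτ
    (QC.t N ![1, U, U * V])
  have e : TR (p ^ m) d (phiG (k := 0) (fun _ => (1 : B)) τ) (qbd (QC.t N ![1, U, U * V])) =
      lamQ p m d τ V - lamQ p m d τ (U * V) + lamQ p m d τ U := by
    have e0 : (fun j => (![1, U, U * V] : Fin (0 + 1 + 2) → GLm N (MonoidAlgebra B C))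
        ((0 : Fin (0 + 1 + 2)).succAbove j)) = fun j => U * (![1, V] : Fin (0 + 1 + 1) → _) j := by
      funext j
      fin_cases j
      · show U = U * 1
        rw [mul_one]
      · rfl
    have e1 : (fun j => (![1, U, U * V] : Fin (0 + 1 + 2) → GLm N (MonoidAlgebra B C))
        ((1 : Fin (0 + 1 + 2)).succAbove j)) = (![1, U * V] : Fin (0 + 1 + 1) → _) := by
      funext j
      fin_cases j <;> rfl
    have e2 : (fun j => (![1, U, U * V] : Fin (0 + 1 + 2) → GLm N (MonoidAlgebra B C))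
        ((2 : Fin (0 + 1 + 2)).succAbove j)) = (![1, U] : Fin (0 + 1 + 1) → _) := by
      funext j
      fin_cases j <;> rfl
    rw [qbd_t, Fin.sum_univ_three, e0, e1, e2, QC.t_inv, map_add, map_add, map_zsmul, map_zsmul,
      map_zsmul]
    unfold lamQ
    simp
    ring
  rw [e] at h
  have h' := (dvd_neg (α := B)).2 h
  have e' : -(lamQ p m d τ V - lamQ p m d τ (U * V) + lamQ p m d τ U) =
      lamQ p m d τ (U * V) - (lamQ p m d τ U + lamQ p m d τ V) := by ring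
  rwa [e'] at h'

theorem lamQ_powR (hrm : r ≤ m) {d : C} (hroot : ∀ h : C, ¬ IsConj d (h ^ p ^ r))
    {τ : (Fin (p ^ m) → C) → ZMod (p ^ m)}
    (hτ : IsTau p m r d τ) {N : ℕ} (U : GLm N (MonoidAlgebra B C)) (l : ℕ) :
    (p : B) ^ (m + (m - r + 1)) ∣ lamQ p m d τ (U ^ l) - l * lamQ p m d τ U := by
  induction l with
  | zero =>
    have h := (dvd_neg (α := B)).2 (lamQ_mulR (B := B) hrm hroot hτ (N := N) 1 1)
    have e : -(lamQ p m d τ ((1 : GLm N (MonoidAlgebra B C)) * 1) -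
        (lamQ p m d τ (1 : GLm N (MonoidAlgebra B C)) +
          lamQ p m d τ (1 : GLm N (MonoidAlgebra B C)))) =
        lamQ p m d τ (U ^ 0) - ((0 : ℕ) : B) * lamQ p m d τ U := by
      rw [mul_one, pow_zero, Nat.cast_zero]
      ring
    rwa [e] at h
  | succ l ih =>
    have h := dvd_add (lamQ_mulR hrm hroot hτ (U ^ l) U) ih
    have e : lamQ p m d τ (U ^ l * U) - (lamQ p m d τ (U ^ l) + lamQ p m d τ U) +
        (lamQ p m d τ (U ^ l) - l * lamQ p m d τ U) =
        lamQ p m d τ (U ^ (l + 1)) - ((l + 1 : ℕ) : B) * lamQ p m d τ U := by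
      rw [pow_succ, Nat.cast_succ]
      ring
    rwa [e] at h

end

end Pool.Agent.H39.CZ
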