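import Pool.Agent.H39.CZ.RLam
import Pool.Agent.H39.CZ.RelN

/-!
# Project CZ: the relation of the logarithms over `B` for an element without roots

`relN'`: as `relN` (`H39/CZ/RelN.lean`), with the hypothesis that no conjugate of `c` is a `p ^ r`-th power in place of the
bound of the `p`-power torsion of `G`.
-/

set_option autoImplicit false

open Matrix

universe u v w

namespace Pool.Agent.H39.CZ

open Pool.Agent.H71.FQ Pool.Agent.H16.KN Pool.Agent.H16.FU Pool.Agent.H39.KL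
open Pool.Agent.H95.WH (K1 K1.unit)

section

variable {G : Type u} [Group G] {H : Type w} [Group H] {B : Type v} [CommRing B]

/-- **Elements which come from a subgroup.**  If `X` is the image of an element of `KQ (B[H])` and no conjugate of `c` is in
the image of `H`, then the functional of `c` is divisible by `p ^ (m + (m - r + 1))` on the chains which represent `X`. -/
theorem relKR {k : ℕ} {p : ℕ} [Fact p.Prime] (m r : ℕ) (hrm : r ≤ m)
    {c : G} (hroot : ∀ h : G, ¬ IsConj c (h ^ p ^ r)) {ψ : (Fin (k + 1) → Fin (p ^ m) → G) → B} (h1 : CIq c (p ^ m) ψ)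
    (h2 : RIq c (p ^ m) ψ) (h3 : ∀ v, dl ψ v = 0) {τ : (Fin (p ^ m) → G) → ZMod (p ^ m)}
    (hτ : IsTau p m r c τ) (e : H →* G) (he : ∀ (u : G) (h : H), u * e h * u⁻¹ ≠ c)
    (X : KQ (MonoidAlgebra B H) k) (x : QC (MonoidAlgebra B G) (k + 1))
    (hx : ofKQ (KQ.map (MonoidAlgebra.mapDomainRingHom B e) X) = QH.mk x) :
    (p : B) ^ (m + (m - r + 1)) ∣ TR (p ^ m) c (phiG ψ τ) x := by
  obtain ⟨y, hy⟩ := ofKQ_map (MonoidAlgebra.mapDomainRingHom B e) X
  have h4 : QH.mk (x - QC.map (MonoidAlgebra.mapDomainRingHom B e) y) = 0 := by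
    rw [map_sub, ← hx, hy, sub_self]
  obtain ⟨w, hw⟩ := QH.mk_eq_zero.1 h4
  have hs : x = QC.map (MonoidAlgebra.mapDomainRingHom B e) y + qbd w := by
    rw [hw]
    abel
  have : NeZero (p ^ m) := ⟨pow_ne_zero m (Fact.out : p.Prime).ne_zero⟩
  rw [hs, map_add, TR_kill (p ^ m) e he (CIq_phiG h1 hτ), zero_add]
  exact bd_dvdR m r hrm hroot h1 h2 h3 hτ w

end

section

variable {G : Type u} [Group G] {B : Type} [CommRing B] {n : ℕ}

private theorem rb_arith [IsDomain B] [CharZero B] {p : ℕ} [Fact p.Prime] (r l : ℕ) (M : ℤ)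
    (μ k : ℕ) (S Λ x y : B)
    (h1 : (p : B) ^ l * Λ = (p : B) ^ (2 * l + r + 1 + r) * S +
      (p : B) ^ (2 * l + (2 * l + r + 1 - r + 1)) * x +
      (p : B) ^ (2 * l + r + 1 + (2 * l + r + 1 - r + 1)) * y)
    (h2 : (p : B) ^ (2 * l + r + 1 + (2 * l + r + 1 - r + 1)) ∣
      (M : B) * ((-1) ^ (k + 1) * ((μ : B) ^ (k + 2) * Λ))) :
    (p : B) ^ (2 * l) ∣ ((M.natAbs * μ ^ (k + 2) * p ^ (2 * r) : ℕ) : B) * S := by
  have hp0 : (p : B) ≠ 0 := Nat.cast_ne_zero.2 (Fact.out : p.Prime).ne_zero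
  rw [show 2 * l + r + 1 - r + 1 = 2 * l + 2 by omega] at h1 h2
  obtain ⟨q, hq⟩ := h2
  have hs : ((-1 : B) ^ (k + 1)) * (-1) ^ (k + 1) = 1 := by
    rw [← mul_pow, neg_one_mul, neg_neg, one_pow]
  have hT : (M : B) * ((μ : B) ^ (k + 2) * Λ) =
      (-1) ^ (k + 1) * ((p : B) ^ (2 * l + r + 1 + (2 * l + 2)) * q) := by
    rw [← hq]
    calc (M : B) * ((μ : B) ^ (k + 2) * Λ) =
        (((-1 : B) ^ (k + 1)) * (-1) ^ (k + 1)) * ((M : B) * ((μ : B) ^ (k + 2) * Λ)) := by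
          rw [hs, one_mul]
      _ = _ := by ring
  have hc : (p : B) ^ (2 * l + 1) * ((p : B) ^ (2 * r) * ((M : B) * ((μ : B) ^ (k + 2) * S))) =
      (p : B) ^ (2 * l + 1) * ((p : B) ^ (2 * l) * ((p : B) * ((p : B) ^ (l + r + 1) *
        ((-1) ^ (k + 1) * q) - (M : B) * (μ : B) ^ (k + 2) * x -
          (p : B) ^ (r + 1) * ((M : B) * (μ : B) ^ (k + 2) * y)))) := by
    have e1 : (p : B) ^ (2 * l + 1) * ((p : B) ^ (2 * r) * ((M : B) * ((μ : B) ^ (k + 2) * S))) =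
        (M : B) * (μ : B) ^ (k + 2) * ((p : B) ^ (2 * l + r + 1 + r) * S) := by ring
    have e2 : (p : B) ^ (2 * l + r + 1 + r) * S = (p : B) ^ l * Λ -
      (p : B) ^ (2 * l + (2 * l + 2)) * x -
      (p : B) ^ (2 * l + r + 1 + (2 * l + 2)) * y := by
      rw [h1]
      ring
    rw [e1, e2]
    calc (M : B) * (μ : B) ^ (k + 2) * ((p : B) ^ l * Λ -
          (p : B) ^ (2 * l + (2 * l + 2)) * x - (p : B) ^ (2 * l + r + 1 + (2 * l + 2)) * y) =
        (p : B) ^ l * ((M : B) * ((μ : B) ^ (k + 2) * Λ)) -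
          (M : B) * (μ : B) ^ (k + 2) * ((p : B) ^ (2 * l + (2 * l + 2)) * x +
            (p : B) ^ (2 * l + r + 1 + (2 * l + 2)) * y) := by ring
      _ = _ := by
        rw [hT]
        ring
  have hd : (p : B) ^ (2 * r) * ((M : B) * ((μ : B) ^ (k + 2) * S)) =
      (p : B) ^ (2 * l) * ((p : B) * ((p : B) ^ (l + r + 1) *
        ((-1) ^ (k + 1) * q) - (M : B) * (μ : B) ^ (k + 2) * x -
          (p : B) ^ (r + 1) * ((M : B) * (μ : B) ^ (k + 2) * y))) :=
    mul_left_cancel₀ (pow_ne_zero _ hp0) hc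
  have he : (p : B) ^ (2 * l) ∣ (M : B) * (((μ : B) ^ (k + 2) * (p : B) ^ (2 * r)) * S) :=
    ⟨_, by rw [← hd]; ring⟩
  have hf : (p : B) ^ (2 * l) ∣ ((M.natAbs : ℕ) : B) *
      (((μ : B) ^ (k + 2) * (p : B) ^ (2 * r)) * S) := by
    rcases Int.natAbs_eq M with h | h
    · rw [h, Int.cast_natCast] at he
      exact he
    · rw [h, Int.cast_neg, Int.cast_natCast, neg_mul, dvd_neg] at he
      exact he
  push_cast
  rw [mul_assoc, mul_assoc, ← mul_assoc ((μ : B) ^ (k + 2))]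
  exact hf

/-- the `1 × 1` matrix of a unit -/
private noncomputable def rb_U {R : Type*} [Ring R] (w : Rˣ) : GLm 1 R :=
  Units.map (Matrix.scalar (Fin 1)).toMonoidHom w

private theorem rb_U_apply {R : Type*} [Ring R] (w : Rˣ) (i j : Fin 1) :
    (rb_U w).val i j = (w : R) := by
  rw [Subsingleton.elim j i]
  exact Matrix.diagonal_apply_eq _ i

private theorem rb_U_pow {R : Type*} [Ring R] (w : Rˣ) (k : ℕ) : rb_U w ^ k = rb_U (w ^ k) :=
  (map_pow (Units.map (Matrix.scalar (Fin 1) : R →+* Matrix (Fin 1) (Fin 1) R).toMonoidHom)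
    w k).symm

private theorem rb_U_val {D : Type u} [Group D] (w : (MonoidAlgebra B D)ˣ) (q : B)
    (a : MonoidAlgebra B D) (h : (w : MonoidAlgebra B D) = 1 + q • a) :
    (rb_U w).val = 1 + q • (Matrix.of fun _ _ : Fin 1 => a) := by
  refine Matrix.ext fun i j => ?_
  rw [rb_U_apply, h, Subsingleton.elim j i, Matrix.add_apply, Matrix.one_apply_eq,
    Matrix.smul_apply, Matrix.of_apply]

open Classical in
private theorem rb_trace {D : Type u} [Group D] [Fintype D] (w : (MonoidAlgebra B D)ˣ) (k : ℕ)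
    (d : D) : trs d ((rb_U w ^ k : GLm 1 (MonoidAlgebra B D)).val - 1) =
      ∑ x : D, if IsConj d x then ((w : MonoidAlgebra B D) ^ k - 1).coeff x else 0 := by
  unfold trs
  refine Finset.sum_congr rfl fun x _ => ?_
  congr 1
  rw [rb_U_pow, Matrix.trace_fin_one]
  show (((rb_U (w ^ k)).val - 1) 0 0).coeff x = _
  rw [Matrix.sub_apply, rb_U_apply, Matrix.one_apply_eq, Units.val_pow_eq_pow_val]

private theorem rb_gasm (D : Subgroup G) (w : (MonoidAlgebra B D)ˣ)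
    (z : cyc (Subgroup.centralizer (D : Set G)) n) :
    ofKQ (gasm1 B n D.subtype (Subgroup.centralizer (D : Set G)).subtype (cent_comm D)
        (K1.unit w) (HG.mk z)) =
      QH.mk (ch 1 (prUz B D (rb_U w)
        (z : Cx ℤ (Subgroup.centralizer (D : Set G)) (n + 1)))) := by
  rw [gasm1, K1.unit, asm1_mk, HG.cr_mk, ofKQ_cls]
  rfl

private theorem rb_log {p : ℕ} [Fact p.Prime] (r l : ℕ)
    {c : G} (hroot : ∀ h : G, ¬ IsConj c (h ^ p ^ r)) (hpc : p ∣ orderOf c) {φ : (Fin (n + 2) → Subgroup.centralizer ({c} : Set G)) → B}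
    (hφ : IsCoc (Subgroup.centralizer ({c} : Set G)) n φ)
    {τ : (Fin (p ^ (2 * l + r + 1)) → G) → ZMod (p ^ (2 * l + r + 1))}
    (hτ : IsTau p (2 * l + r + 1) r c τ) (D : Subgroup G) [Fintype D]
    (w : (MonoidAlgebra B D)ˣ)
    (hw : ∃ a : MonoidAlgebra B D, (w : MonoidAlgebra B D) = 1 + ((p : B) ^ 2) • a)
    (z : HG (Subgroup.centralizer (D : Set G)) n) (d : D) :
    ∃ x y : B, (p : B) ^ l * (HG.ev hφ (trc n c D d z) *
        lamQ p (2 * l + r + 1) d (tauC τ c d) (rb_U w)) =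
      (p : B) ^ (2 * l + r + 1 + r) * (HG.ev hφ (trc n c D d z) *
        trs d ((rb_U w ^ p ^ l : GLm 1 (MonoidAlgebra B D)).val - 1)) +
      (p : B) ^ (2 * l + (2 * l + r + 1 - r + 1)) * x +
      (p : B) ^ (2 * l + r + 1 + (2 * l + r + 1 - r + 1)) * y := by
  by_cases hd : IsConj c (d : G)
  · obtain ⟨a, ha⟩ := hw
    have hpd : p ∣ orderOf d := by
      rw [← orderOf_injective D.subtype D.subtype_injective d]
      obtain ⟨g, hg⟩ := isConj_iff.1 hd
      have e : (D.subtype d : G) = g * c * g⁻¹ := hg.symm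
      rw [e, ← MulAut.conj_apply, ← MulEquiv.coe_toMonoidHom,
        orderOf_injective _ (MulAut.conj g).injective c]
      exact hpc
    have hrD : ∀ h : D, ¬ IsConj d (h ^ p ^ r) := by
      intro h hh
      obtain ⟨v, hv⟩ := isConj_iff.1 hh
      refine hroot (h : G) (hd.trans (isConj_iff.2 ⟨(v : G), ?_⟩))
      rw [← Subgroup.coe_pow, ← hv]
      rfl
    obtain ⟨x, y, hxy⟩ := lamQ_logR (by omega) hrD hpd (isTau_tauC hτ d hd)
      (Matrix.of fun _ _ : Fin 1 => a) (rb_U w) (rb_U_val w _ a ha) l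
    refine ⟨HG.ev hφ (trc n c D d z) * x, HG.ev hφ (trc n c D d z) * y, ?_⟩
    calc (p : B) ^ l * (HG.ev hφ (trc n c D d z) *
          lamQ p (2 * l + r + 1) d (tauC τ c d) (rb_U w)) =
        HG.ev hφ (trc n c D d z) * ((p : B) ^ l *
          lamQ p (2 * l + r + 1) d (tauC τ c d) (rb_U w)) := by ring
      _ = _ := by
        rw [hxy]
        ring
  · refine ⟨0, 0, ?_⟩
    rw [trc_of_not hd, AddMonoidHom.zero_apply, map_zero]
    ring

/-- the sum over the representatives -/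
private theorem rb_sum {c : G} {φ : (Fin (n + 2) → Subgroup.centralizer ({c} : Set G)) → B}
    (hφ : IsCoc (Subgroup.centralizer ({c} : Set G)) n φ) (D : Subgroup G) [Fintype D]
    {T : Finset D} (hT : Reps T) (w : (MonoidAlgebra B D)ˣ) (k : ℕ)
    (z : HG (Subgroup.centralizer (D : Set G)) n) :
    ∑ d ∈ T, HG.ev hφ (trc n c D d z) *
        trs d ((rb_U w ^ k : GLm 1 (MonoidAlgebra B D)).val - 1) =
      ∑ d : D, HG.ev hφ (trc n c D d z) * (((w : MonoidAlgebra B D) ^ k - 1).coeff d) := by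
  classical
  simp only [rb_trace, Finset.mul_sum]
  rw [Finset.sum_comm]
  refine Finset.sum_congr rfl fun x _ => ?_
  obtain ⟨d, hdT, hd, hun⟩ := hT x
  rw [Finset.sum_eq_single_of_mem d hdT, if_pos hd, trc_conj hd]
  intro d' hd' hne
  rw [if_neg, mul_zero]
  intro h
  exact hne (hun d' hd' h)

/-- **The relation of the logarithms, modulo the image of a subgroup without conjugates of `c`.** -/
theorem relN' [IsDomain B] [CharZero B] {p : ℕ} [Fact p.Prime] (r : ℕ) {c : G}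
    (hroot : ∀ h : G, ¬ IsConj c (h ^ p ^ r)) (hpc : p ∣ orderOf c) {π : G → Subgroup.centralizer ({c} : Set G)}
    (hπ : ∀ (z : Subgroup.centralizer ({c} : Set G)) (g : G), π (z * g) = z * π g)
    {φ : (Fin (n + 2) → Subgroup.centralizer ({c} : Set G)) → B}
    (hφ : IsCoc (Subgroup.centralizer ({c} : Set G)) n φ) (hmeas : Meas p c π φ)
    {ι : Type} [Fintype ι] (C : ι → Subgroup G) [∀ i, Fintype (C i)]
    (u : ∀ i, (MonoidAlgebra B (C i))ˣ)
    (hu : ∀ i, ∃ a : MonoidAlgebra B (C i),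
      (u i : MonoidAlgebra B (C i)) = 1 + ((p : B) ^ 2) • a)
    (z : ∀ i, HG (Subgroup.centralizer (C i : Set G)) n)
    {H : Type w} [Group H] (e : H →* G) (he : ∀ (v : G) (h : H), v * e h * v⁻¹ ≠ c)
    (X : KQ (MonoidAlgebra B H) (n + 1)) (M : ℤ) (hM : M ≠ 0)
    (h : M • ∑ i, gasm1 B n (C i).subtype (Subgroup.centralizer (C i : Set G)).subtype
        (cent_comm (C i)) (K1.unit (u i)) (z i) =
      KQ.map (MonoidAlgebra.mapDomainRingHom B e) X) :
    ∃ K : ℕ, K ≠ 0 ∧ ∀ l : ℕ, (p : B) ^ (2 * l) ∣ (K : B) *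
      ∑ i, ∑ d : C i, HG.ev hφ (trc n c (C i) d (z i)) *
        (((u i : MonoidAlgebra B (C i)) ^ p ^ l - 1).coeff d) := by
  classical
  have hp : p.Prime := Fact.out
  obtain ⟨μ, hμ, hm⟩ := hmeas
  refine ⟨M.natAbs * μ ^ (n + 2) * p ^ (2 * r), mul_ne_zero (mul_ne_zero
    (Int.natAbs_ne_zero.2 hM) (pow_ne_zero _ hμ)) (pow_ne_zero _ hp.ne_zero), fun l => ?_⟩
  obtain ⟨ψ, β, h1, h2, h3, h4, h5⟩ := hm (2 * l + r + 1)
  obtain ⟨τ, hτ⟩ := exists_tauR hp (2 * l + r + 1) r hroot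
  choose z' hz' using fun i => HG.mk_surjective (z i)
  choose T hT using fun i => exists_reps (C i)
  have hX : ofKQ (KQ.map (MonoidAlgebra.mapDomainRingHom B e) X) =
      QH.mk (M • ∑ i, ch 1 (prUz B (C i) (rb_U (u i))
          (z' i : Cx ℤ (Subgroup.centralizer (C i : Set G)) (n + 1)))) := by
    rw [← h, map_zsmul, map_zsmul, map_sum, map_sum]
    congr 1
    refine Finset.sum_congr rfl fun i _ => ?_
    rw [← hz' i, rb_gasm]
  have key := relKR (2 * l + r + 1) r (by omega) hroot h1 h2 h3 hτ e he X _ hX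
  have hval : ∀ i, TR (p ^ (2 * l + r + 1)) c (phiG ψ τ) (ch 1 (prUz B (C i) (rb_U (u i))
      (z' i : Cx ℤ (Subgroup.centralizer (C i : Set G)) (n + 1)))) =
      (-1) ^ (n + 1) * ((μ : B) ^ (n + 2) * ∑ d ∈ T i, HG.ev hφ (trc n c (C i) d (z i)) *
        lamQ p (2 * l + r + 1) d (tauC τ c d) (rb_U (u i))) := by
    intro i
    rw [val_unitN (C i) (hT i) hπ hφ h1 h4 h5 hτ 1 (rb_U (u i)) (z' i), hz' i]
  rw [map_zsmul, map_sum,
    Finset.sum_congr rfl fun i _ => hval i, ← Finset.mul_sum, ← Finset.mul_sum,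
    zsmul_eq_mul] at key
  choose x y hxy using fun i => rb_log r l hroot hpc hφ hτ (C i) (u i) (hu i) (z i)
  have hS : ∑ i, ∑ d : C i, HG.ev hφ (trc n c (C i) d (z i)) *
        (((u i : MonoidAlgebra B (C i)) ^ p ^ l - 1).coeff d) =
      ∑ i, ∑ d ∈ T i, HG.ev hφ (trc n c (C i) d (z i)) *
        trs d ((rb_U (u i) ^ p ^ l : GLm 1 (MonoidAlgebra B (C i))).val - 1) :=
    Finset.sum_congr rfl fun i _ => (rb_sum hφ (C i) (hT i) (u i) (p ^ l) (z i)).symm
  rw [hS]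
  refine rb_arith r l M μ n _ _ (∑ i, ∑ d ∈ T i, x i d) (∑ i, ∑ d ∈ T i, y i d) ?_ key
  simp only [Finset.mul_sum, ← Finset.sum_add_distrib]
  refine Finset.sum_congr rfl fun i _ => ?_
  refine Finset.sum_congr rfl fun d _ => ?_
  exact hxy i d

end

end Pool.Agent.H39.CZ
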