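import Pool.Agent.H71.CZ.SumH
import Pool.Agent.H39.CZ.RelR
import Pool.Agent.H16.CZ.NuR

/-!
# Project CZ: the relation of the logarithms for elements `c` of arbitrary finite order, without a bound of the torsion

`hat p c` is not conjugate to a `p`-th power (`noRoot_hat`): its image in `C_p` is a generator.  So `relN'` applies with `r = 1`
and no bound of the `p`-power torsion of `G` is needed.
-/

set_option autoImplicit false

open Matrix

universe u v w

namespace Pool.Agent.H39.CZ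

open Pool.Agent.H71.FQ Pool.Agent.H16.KN Pool.Agent.H16.FU Pool.Agent.H71.CZ
open Pool.Agent.H95.WH (K1 K1.unit)
open Pool.Agent.H16.CZ (meas_of_root)

section

variable {p : ℕ} [hp : Fact p.Prime] {B : Type} [CommRing B] {G : Type v} [Group G] {n : ℕ}

/-- No conjugate of `hat p c` is a `p`-th power. -/
theorem noRoot_hat (c : G) (h : Wr p G) : ¬ IsConj (hat p c) (h ^ p ^ 1) := by
  intro hh
  obtain ⟨v, hv⟩ := isConj_iff.1 hh
  have h1 := congrArg (SemidirectProduct.rightHom) hv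
  rw [pow_one, map_mul, map_mul, map_inv, map_pow, right_hat, mul_comm, inv_mul_cancel_left] at h1
  apply ofAdd_one_ne (p := p)
  rw [h1]
  have h2 : ∀ x : Multiplicative (ZMod p), x ^ p = 1 := by
    intro x
    apply Multiplicative.toAdd.injective
    rw [toAdd_pow, nsmul_eq_mul, ZMod.natCast_self, zero_mul]
    rfl
  exact h2 _

open Classical in
/-- **The relation.** -/
theorem relC' [IsDomain B] [CharZero B] (hB : GoodB p B) {c : G} (hc : IsOfFinOrder c)
    {φ : (Fin (n + 2) → Subgroup.centralizer ({c} : Set G)) → B}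
    (hφ : IsCoc (Subgroup.centralizer ({c} : Set G)) n φ)
    {ι : Type} [Fintype ι] (C : ι → Subgroup G) [∀ i, Fintype (C i)]
    (hC : ∀ i, ∀ a b : C i, a * b = b * a) (u : ∀ i, (MonoidAlgebra B (C i))ˣ)
    (hu : ∀ i, ∃ a : MonoidAlgebra B (C i),
      (u i : MonoidAlgebra B (C i)) = 1 + (p : MonoidAlgebra B (C i)) ^ 4 * a)
    (z : ∀ i, HG (Subgroup.centralizer (C i : Set G)) n) (M : ℤ) (hM : M ≠ 0)
    (h : M • ∑ i, gasm1 B n (C i).subtype (Subgroup.centralizer (C i : Set G)).subtype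
        (cent_comm (C i)) (K1.unit (u i)) (z i) = 0) :
    ∃ K : ℕ, K ≠ 0 ∧ ∀ l : ℕ, (p : B) ^ (2 * l) ∣ (K : B) *
      ∑ i, ∑ d : C i, HG.ev hφ (trc n c (C i) d (z i)) *
        ((((u i : MonoidAlgebra B (C i)) ^ p ^ l) ^ p).coeff d -
          ∑ g : C i with g ^ p = d, ((u i : MonoidAlgebra B (C i)) ^ p ^ l).coeff g) := by
  choose a ha using hu
  choose uD hprU X hX using fun i => exists_uD hB (u i) (a i) (ha i)
  obtain ⟨k, Y, hk, hY⟩ := rel_hat hB C u uD hprU z M hM h
  obtain ⟨π, hπ⟩ := exists_pi (hat p c)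
  have hcc := isOfFinOrder_hat (p := p) hc
  have hφ' := isCoc_hatF (p := p) hφ
  have hmeas := meas_of_root hp.out 1 (noRoot_hat c) hcc π hπ hφ'
  let hft : ∀ i, Fintype (hatS p (C i)) := fun i => Fintype.ofFinite _
  obtain ⟨K, hK, hdvd⟩ := relN' 1 (noRoot_hat c) (dvd_orderOf_hat hc) hπ hφ' hmeas (fun i => hatS p (C i))
    (fun i => hatU (C i) (uD i)) (fun i => hatU_cong (C i) (uD i) (X i) (hX i))
    (fun i => HG.map n (dgC p (C i)) (z i)) (inc p G)
    (fun v g hv => hat_conj_notMem c v⁻¹ g (by rw [← hv]; group)) Y k hk hY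
  refine ⟨K, hK, fun l => ?_⟩
  have h1 := hdvd l
  rw [Finset.sum_congr rfl fun i _ => sum_hat hB hφ (C i) (hC i) (u i) (uD i) (hprU i) (p ^ l) (z i)] at h1
  exact h1

end

end Pool.Agent.H39.CZ
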